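import Mathlib

/-!
# Coefficient estimates for products of Blaschke factors, by formal power series
-/

namespace LehmerLevel

open PowerSeries

noncomputable section

/-- Partial sums of squares of the absolute values of the coefficients. -/
def sq (N : ℕ) (q : PowerSeries ℂ) : ℝ := ∑ n ∈ Finset.range N, ‖PowerSeries.coeff n q‖ ^ 2

lemma norm_identity (a x y : ℂ) :
    ‖x - a * y‖ ^ 2 - ‖y - (starRingEnd ℂ) a * x‖ ^ 2 = (1 - ‖a‖ ^ 2) * (‖x‖ ^ 2 - ‖y‖ ^ 2) := by
  simp only [Complex.sq_norm, Complex.normSq_apply, Complex.sub_re, Complex.sub_im, Complex.mul_re,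
    Complex.mul_im, Complex.conj_re, Complex.conj_im]
  ring

lemma sq_step_eq (a : ℂ) (q : PowerSeries ℂ) (N : ℕ) :
    sq (N + 1) ((PowerSeries.X - PowerSeries.C a) * q)
      = sq (N + 1) ((1 - PowerSeries.C ((starRingEnd ℂ) a) * PowerSeries.X) * q)
        - (1 - ‖a‖ ^ 2) * ‖PowerSeries.coeff N q‖ ^ 2 := by
  induction N with
  | zero =>
    simp only [sq, zero_add, Finset.sum_range_one, sub_mul, one_mul, map_sub, mul_assoc,
      PowerSeries.coeff_C_mul, PowerSeries.coeff_zero_X_mul, zero_sub, mul_zero, sub_zero, norm_neg,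
      norm_mul]
    ring
  | succ N ih =>
    have h1 : sq (N + 1 + 1) ((PowerSeries.X - PowerSeries.C a) * q)
        = sq (N + 1) ((PowerSeries.X - PowerSeries.C a) * q)
          + ‖PowerSeries.coeff N q - a * PowerSeries.coeff (N + 1) q‖ ^ 2 := by
      unfold sq
      rw [Finset.sum_range_succ]
      congr 3
      rw [sub_mul, map_sub, PowerSeries.coeff_succ_X_mul, PowerSeries.coeff_C_mul]
    have h2 : sq (N + 1 + 1) ((1 - PowerSeries.C ((starRingEnd ℂ) a) * PowerSeries.X) * q)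
        = sq (N + 1) ((1 - PowerSeries.C ((starRingEnd ℂ) a) * PowerSeries.X) * q)
          + ‖PowerSeries.coeff (N + 1) q - (starRingEnd ℂ) a * PowerSeries.coeff N q‖ ^ 2 := by
      unfold sq
      rw [Finset.sum_range_succ]
      congr 3
      rw [sub_mul, one_mul, map_sub, mul_assoc, PowerSeries.coeff_C_mul,
        PowerSeries.coeff_succ_X_mul]
    rw [h1, h2, ih]
    have := norm_identity a (PowerSeries.coeff N q) (PowerSeries.coeff (N + 1) q)
    linarith

lemma sq_step (a : ℂ) (ha : ‖a‖ ≤ 1) (q : PowerSeries ℂ) (N : ℕ) :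
    sq N ((PowerSeries.X - PowerSeries.C a) * q)
      ≤ sq N ((1 - PowerSeries.C ((starRingEnd ℂ) a) * PowerSeries.X) * q) := by
  cases N with
  | zero => simp [sq]
  | succ N =>
    rw [sq_step_eq]
    have h1 : ‖a‖ ^ 2 ≤ 1 := by
      have := norm_nonneg a
      nlinarith
    have h2 : 0 ≤ ‖PowerSeries.coeff N q‖ ^ 2 := by positivity
    nlinarith

/-- numerator of the Blaschke product -/
def num (s : Multiset ℂ) : PowerSeries ℂ := (s.map fun a => PowerSeries.X - PowerSeries.C a).prod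

/-- denominator of the Blaschke product -/
def den (s : Multiset ℂ) : PowerSeries ℂ :=
  (s.map fun a => 1 - PowerSeries.C a * PowerSeries.X).prod

lemma sq_num (s : Multiset ℂ) (hs : ∀ a ∈ s, ‖a‖ ≤ 1) (w : PowerSeries ℂ) (N : ℕ) :
    sq N (num s * w) ≤ sq N (den (s.map (starRingEnd ℂ)) * w) := by
  induction s using Multiset.induction generalizing w with
  | empty => simp [num, den]
  | cons a t ih =>
    have ha : ‖a‖ ≤ 1 := hs a (Multiset.mem_cons_self a t)
    have ht : ∀ b ∈ t, ‖b‖ ≤ 1 := fun b hb => hs b (Multiset.mem_cons_of_mem hb)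
    have e1 : num (a ::ₘ t) * w = (PowerSeries.X - PowerSeries.C a) * (num t * w) := by
      simp only [num, Multiset.map_cons, Multiset.prod_cons]; ring
    have e2 : (1 - PowerSeries.C ((starRingEnd ℂ) a) * PowerSeries.X) * (num t * w)
        = num t * ((1 - PowerSeries.C ((starRingEnd ℂ) a) * PowerSeries.X) * w) := by ring
    have e3 : den ((a ::ₘ t).map (starRingEnd ℂ)) * w
        = den (t.map (starRingEnd ℂ))
          * ((1 - PowerSeries.C ((starRingEnd ℂ) a) * PowerSeries.X) * w) := by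
      simp only [den, Multiset.map_cons, Multiset.prod_cons]; ring
    rw [e1, e3]
    refine (sq_step a ha _ N).trans ?_
    rw [e2]
    exact ih ht _

lemma constantCoeff_den (s : Multiset ℂ) : PowerSeries.constantCoeff (den s) = 1 := by
  induction s using Multiset.induction with
  | empty => simp [den]
  | cons a t ih =>
    simp only [den, Multiset.map_cons, Multiset.prod_cons] at ih ⊢
    rw [map_mul, ih]; simp

lemma isUnit_den (s : Multiset ℂ) : IsUnit (den s) := by
  rw [PowerSeries.isUnit_iff_constantCoeff, constantCoeff_den]; exact isUnit_one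

lemma norm_constantCoeff_num (s : Multiset ℂ) :
    ‖PowerSeries.constantCoeff (num s)‖ = (s.map fun a => ‖a‖).prod := by
  induction s using Multiset.induction with
  | empty => simp [num]
  | cons a t ih =>
    simp only [num, Multiset.map_cons, Multiset.prod_cons] at ih ⊢
    rw [map_mul, norm_mul, ih]; simp

/-- Schwarz-Pick inequality for the coefficients of a Blaschke product. -/
lemma coeff_le (s : Multiset ℂ) (hs : ∀ a ∈ s, ‖a‖ ≤ 1) (hc : s.map (starRingEnd ℂ) = s)
    (f : PowerSeries ℂ) (hf : f * den s = num s) (k : ℕ) (hk : k ≠ 0) :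
    ‖PowerSeries.coeff k f‖ ≤ 1 - ‖PowerSeries.coeff 0 f‖ ^ 2 := by
  obtain ⟨u, hu⟩ := isUnit_den s
  have key : ∀ (p : PowerSeries ℂ) (N : ℕ), sq N (f * p) ≤ sq N p := by
    intro p N
    have h := sq_num s hs ((↑u⁻¹ : PowerSeries ℂ) * p) N
    rw [hc] at h
    have e1 : num s * ((↑u⁻¹ : PowerSeries ℂ) * p) = f * p := by
      rw [← hf, ← hu]
      calc f * ↑u * (↑u⁻¹ * p) = f * (↑u * ↑u⁻¹) * p := by ring
        _ = f * p := by rw [Units.mul_inv, mul_one]
    have e2 : den s * ((↑u⁻¹ : PowerSeries ℂ) * p) = p := by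
      rw [← hu, ← mul_assoc, Units.mul_inv, one_mul]
    rwa [e1, e2] at h
  set c0 := PowerSeries.coeff 0 f with hc0
  set ck := PowerSeries.coeff k f with hck
  -- two-term inequality
  have two : ∀ b : ℂ, ‖c0‖ ^ 2 + ‖ck + b * c0‖ ^ 2 ≤ 1 + ‖b‖ ^ 2 := by
    intro b
    have h := key (1 + PowerSeries.C b * PowerSeries.X ^ k) (k + 1)
    have hR : sq (k + 1) (1 + PowerSeries.C b * PowerSeries.X ^ k) = 1 + ‖b‖ ^ 2 := by
      unfold sq
      rw [Finset.sum_range_succ, ← Nat.succ_pred_eq_of_pos (Nat.pos_of_ne_zero hk),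
        Finset.sum_range_succ']
      simp only [map_add, PowerSeries.coeff_C_mul, PowerSeries.coeff_X_pow, PowerSeries.coeff_one]
      have hz : ∀ i ∈ Finset.range k.pred,
          ‖(if i + 1 = 0 then (1:ℂ) else 0) + b * (if i + 1 = k.pred.succ then 1 else 0)‖ ^ 2
            = 0 := by
        intro i hi
        have hi' := Finset.mem_range.mp hi
        rw [if_neg (by omega), if_neg (by omega)]; simp
      rw [Finset.sum_eq_zero hz]
      simp
    have hL : ‖c0‖ ^ 2 + ‖ck + b * c0‖ ^ 2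
        ≤ sq (k + 1) (f * (1 + PowerSeries.C b * PowerSeries.X ^ k)) := by
      unfold sq
      have hfe : ∀ n, PowerSeries.coeff n (f * (1 + PowerSeries.C b * PowerSeries.X ^ k))
          = PowerSeries.coeff n f + b * (if k ≤ n then PowerSeries.coeff (n - k) f else 0) := by
        intro n
        have : f * (1 + PowerSeries.C b * PowerSeries.X ^ k)
            = f + PowerSeries.C b * (f * PowerSeries.X ^ k) := by ring
        rw [this, map_add, PowerSeries.coeff_C_mul, PowerSeries.coeff_mul_X_pow']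
      rw [Finset.sum_range_succ, ← Nat.succ_pred_eq_of_pos (Nat.pos_of_ne_zero hk),
        Finset.sum_range_succ', Nat.succ_pred_eq_of_pos (Nat.pos_of_ne_zero hk)]
      rw [hfe 0, hfe k]
      rw [if_neg (by omega), if_pos le_rfl, Nat.sub_self, mul_zero, add_zero]
      have : 0 ≤ ∑ i ∈ Finset.range k.pred,
          ‖PowerSeries.coeff (i + 1) (f * (1 + PowerSeries.C b * PowerSeries.X ^ k))‖ ^ 2 :=
        Finset.sum_nonneg fun _ _ => by positivity
      linarith
    exact hL.trans (h.trans hR.le)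
  -- choose b
  have h0 : ‖c0‖ ^ 2 ≤ 1 := by
    have := two 0
    simp only [zero_mul, add_zero, norm_zero] at this
    nlinarith [sq_nonneg ‖ck‖]
  by_cases hA : ‖c0‖ ^ 2 = 1
  · have := two 0
    simp only [zero_mul, add_zero, norm_zero] at this
    have h3 : ‖ck‖ ^ 2 ≤ 0 := by nlinarith
    have h4 : ‖ck‖ = 0 := by nlinarith [norm_nonneg ck]
    rw [h4, hA]; norm_num
  · have hApos : 0 < 1 - ‖c0‖ ^ 2 := by
      rcases lt_or_eq_of_le h0 with h | h
      · linarith
      · exact absurd h hA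
    set A := 1 - ‖c0‖ ^ 2 with hAdef
    have h := two (((A⁻¹ : ℝ) : ℂ) * (starRingEnd ℂ) c0 * ck)
    have e1 : ck + ((A⁻¹ : ℝ) : ℂ) * (starRingEnd ℂ) c0 * ck * c0 = ((A⁻¹ : ℝ) : ℂ) * ck := by
      have hcc : (starRingEnd ℂ) c0 * c0 = ((‖c0‖ ^ 2 : ℝ) : ℂ) := by
        rw [mul_comm, Complex.mul_conj, Complex.normSq_eq_norm_sq]
      have hAc : ((A : ℝ) : ℂ) ≠ 0 := by exact_mod_cast hApos.ne'
      have : ck + ((A⁻¹ : ℝ) : ℂ) * (starRingEnd ℂ) c0 * ck * c0
          = ck * (1 + ((A⁻¹ : ℝ) : ℂ) * ((starRingEnd ℂ) c0 * c0)) := by ring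
      rw [this, hcc]
      have h5 : (1 + ((A⁻¹ : ℝ) : ℂ) * ((‖c0‖ ^ 2 : ℝ) : ℂ)) = ((A⁻¹ : ℝ) : ℂ) := by
        have : (1 + A⁻¹ * ‖c0‖ ^ 2 : ℝ) = A⁻¹ := by
          field_simp
          rw [hAdef]; ring
        exact_mod_cast this
      rw [h5]; ring
    rw [e1, norm_mul, norm_mul, norm_mul, Complex.norm_real, Complex.norm_conj,
      Real.norm_of_nonneg (inv_nonneg.mpr hApos.le)] at h
    -- x/A^2 ≤ A + a^2 x/A^2
    have hx : ‖ck‖ ^ 2 ≤ A ^ 2 := by
      have h6 : (A⁻¹ * ‖ck‖) ^ 2 - (A⁻¹ * ‖c0‖ * ‖ck‖) ^ 2 ≤ A := by linarith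
      have h7 : (A⁻¹ * ‖ck‖) ^ 2 - (A⁻¹ * ‖c0‖ * ‖ck‖) ^ 2 = A⁻¹ * ‖ck‖ ^ 2 := by
        have : (A⁻¹ * ‖ck‖) ^ 2 - (A⁻¹ * ‖c0‖ * ‖ck‖) ^ 2
          = A⁻¹ * ‖ck‖ ^ 2 * (A⁻¹ * (1 - ‖c0‖ ^ 2)) := by ring
        rw [this, ← hAdef, inv_mul_cancel₀ hApos.ne', mul_one]
      rw [h7, inv_mul_le_iff₀ hApos] at h6
      nlinarith
    exact abs_le_of_sq_le_sq' hx hApos.le |>.2

end

end LehmerLevel
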