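import Pool.Agent.Work.MP_30f4fc_nt.Galois

/-!
# Counting
-/

namespace LehmerLevel

open Polynomial

noncomputable section

variable {F : Type*} [Field F] [CharZero F] [Algebra F Om]

theorem galois_bound_aux (P : ℤ[X]) (hm : P.Monic) (hirr : Irreducible P)
    (hrec : ∀ z : ℂ, aeval z P = 0 → aeval z⁻¹ P = 0)
    (z0 : ℂ) (hz0 : aeval z0 P = 0) (hz0n : 1 < ‖z0‖)
    (κ : F → F) (hκ : ∀ (φ : F →+* ℂ) (x : F), φ (κ x) = (starRingEnd ℂ) (φ x)) :
    ∃ m : ℕ, P.natDegree ≤
        (2 * Multiset.card ((P.map (Int.castRingHom ℂ)).roots.filter fun z => 1 < ‖z‖)) * (m + 1)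
      ∧ 2 ^ m ≤ Nat.card (P.map (algebraMap ℤ F)).Gal := by
  classical
  set p : F[X] := P.map (algebraMap ℤ F) with hp
  have hpm : p.Monic := hm.map _
  have hp0 : p ≠ 0 := hpm.ne_zero
  have hfact : Fact ((p.map (algebraMap F Om)).Splits) := ⟨IsAlgClosed.splits _⟩
  -- evaluation
  have hev : ∀ x : Om, aeval x p = 0 ↔ aeval (x : ℂ) P = 0 := by
    intro x
    have h1 : aeval x p = aeval x P := by
      rw [hp, aeval_map_algebraMap]
    have h2 : aeval ((x : Om) : ℂ) P = ((aeval x P : Om) : ℂ) := by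
      exact (aeval_algebraMap_apply ℂ x P)
    rw [h1, h2]
    constructor
    · intro h
      rw [h]; rfl
    · intro h
      exact Subtype.ext h
  have hmem : ∀ x : Om, x ∈ p.rootSet Om ↔ aeval (x : ℂ) P = 0 := by
    intro x
    rw [mem_rootSet, ← hev x]
    exact ⟨fun h => h.2, fun h => ⟨hp0, h⟩⟩
  -- the rational polynomial
  set q : ℚ[X] := P.map (Int.castRingHom ℚ) with hq
  have hqirr : Irreducible q := by
    have := (hm.irreducible_iff_irreducible_map_fraction_map (K := ℚ)).mp hirr
    simpa [hq] using this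
  have hqm : q.Monic := hm.map _
  have hqev : ∀ x : Om, aeval (x : ℂ) P = 0 → minpoly ℚ x = q := by
    intro x hx
    symm
    apply minpoly.eq_of_irreducible_of_monic hqirr _ hqm
    have h1 : aeval x q = aeval x P := by
      rw [hq]
      exact aeval_map_algebraMap ℚ x P
    rw [h1]
    have h2 : aeval ((x : Om) : ℂ) P = ((aeval x P : Om) : ℂ) := aeval_algebraMap_apply ℂ x P
    rw [h2] at hx
    exact Subtype.ext hx
  -- invariance under automorphisms
  have hinv : ∀ (g : Om ≃ₐ[ℚ] Om) (x : Om), aeval (x : ℂ) P = 0 →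
      aeval ((g x : Om) : ℂ) P = 0 := by
    intro g x hx
    rw [← hev] at hx ⊢
    have h1 : ∀ y : Om, aeval y p = aeval y P := fun y => by rw [hp, aeval_map_algebraMap]
    rw [h1] at hx ⊢
    have : aeval (g x) P = g (aeval x P) := by
      exact aeval_algHom_apply ((g : Om →ₐ[ℚ] Om).restrictScalars ℤ) x P
    rw [this, hx, map_zero]
  -- separability
  have hsep : p.Separable := by
    have h1 : q.Separable := hqirr.separable
    have h2 : p = q.map (algebraMap ℚ F) := by
      rw [hp, hq, Polynomial.map_map]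
      congr 1
      exact RingHom.ext_int _ _
    rw [h2]
    exact h1.map
  have hcardX : Fintype.card (p.rootSet Om) = P.natDegree := by
    rw [card_rootSet_eq_natDegree hsep hfact.out, hp, hm.natDegree_map]
  -- sets
  set B : Finset (p.rootSet Om) := Finset.univ.filter (fun x => ‖((x : Om) : ℂ)‖ ≠ 1) with hB
  set T : (Om ≃ₐ[ℚ] Om) → Finset (p.rootSet Om) :=
    fun g => Finset.univ.filter (fun x => ‖((g⁻¹ (x : Om) : Om) : ℂ)‖ ≠ 1) with hT
  set h : (Om ≃ₐ[ℚ] Om) → p.Gal := fun g => Gal.restrict p Om (commF κ hκ g) with hh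
  have hcover := exists_cover_bound (X := p.rootSet Om) (N := p.Gal) B T h ?_ ?_ ?_ ?_
  · obtain ⟨m, hm1, hm2⟩ := hcover
    refine ⟨m, ?_, hm2⟩
    rw [hcardX] at hm1
    refine hm1.trans (Nat.mul_le_mul_right _ ?_)
    -- B.card ≤ 2 s
    set Rt := (P.map (Int.castRingHom ℂ)).roots with hRt
    set S := (Rt.filter fun z => 1 < ‖z‖).toFinset with hS
    have hScard : S.card ≤ Multiset.card (Rt.filter fun z => 1 < ‖z‖) :=
      Multiset.toFinset_card_le _
    have hmemS : ∀ z : ℂ, aeval z P = 0 → 1 < ‖z‖ → z ∈ S := by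
      intro z hz hz1
      rw [hS, Multiset.mem_toFinset, Multiset.mem_filter]
      refine ⟨?_, hz1⟩
      rw [hRt, mem_roots (hm.map _).ne_zero, IsRoot.def, eval_map]
      exact hz
    have hB12 : B ⊆ (Finset.univ.filter (fun x : p.rootSet Om => 1 < ‖((x : Om) : ℂ)‖)) ∪
        (Finset.univ.filter (fun x : p.rootSet Om => ‖((x : Om) : ℂ)‖ < 1)) := by
      intro x hx
      rw [hB, Finset.mem_filter] at hx
      rw [Finset.mem_union, Finset.mem_filter, Finset.mem_filter]
      rcases lt_or_gt_of_ne hx.2 with h1 | h1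
      · exact Or.inr ⟨Finset.mem_univ _, h1⟩
      · exact Or.inl ⟨Finset.mem_univ _, h1⟩
    have hc1 : (Finset.univ.filter (fun x : p.rootSet Om => 1 < ‖((x : Om) : ℂ)‖)).card
        ≤ S.card := by
      apply Finset.card_le_card_of_injOn (fun x : p.rootSet Om => ((x : Om) : ℂ))
      · intro x hx
        have hx' := (Finset.mem_filter.mp hx).2
        exact hmemS _ ((hmem _).mp x.2) hx'
      · intro x _ y _ hxy
        exact Subtype.ext (Subtype.ext hxy)
    have hc2 : (Finset.univ.filter (fun x : p.rootSet Om => ‖((x : Om) : ℂ)‖ < 1)).card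
        ≤ S.card := by
      apply Finset.card_le_card_of_injOn (fun x : p.rootSet Om => ((x : Om) : ℂ)⁻¹)
      · intro x hx
        have hx' := (Finset.mem_filter.mp hx).2
        have hx0 := (hmem _).mp x.2
        refine hmemS _ (hrec _ hx0) ?_
        rw [norm_inv]
        have hne : ((x : Om) : ℂ) ≠ 0 := by
          intro h0
          -- the minimal polynomial of `0` is `X`, which has no root outside the unit disk
          have hX : minpoly ℚ (x : Om) = q := hqev _ hx0
          have hxz : (x : Om) = 0 := Subtype.ext h0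
          rw [hxz, minpoly.zero] at hX
          have hq0 : aeval z0 q = 0 := by
            rw [hq]
            have := aeval_map_algebraMap ℚ z0 P
            exact this.trans hz0
          rw [← hX, aeval_X] at hq0
          rw [hq0, norm_zero] at hz0n
          linarith
        exact (one_lt_inv₀ (norm_pos_iff.mpr hne)).mpr hx'
      · intro x _ y _ hxy
        exact Subtype.ext (Subtype.ext (inv_injective hxy))
    calc B.card ≤ _ := Finset.card_le_card hB12
      _ ≤ _ := Finset.card_union_le _ _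
      _ ≤ S.card + S.card := Nat.add_le_add hc1 hc2
      _ ≤ _ := by omega
  · -- translates
    intro g
    apply Finset.card_le_card_of_injOn
      (fun x : p.rootSet Om => (⟨g⁻¹ (x : Om), (hmem _).mpr (hinv _ _ ((hmem _).mp x.2))⟩ :
        p.rootSet Om))
    · intro x hx
      have hx' := (Finset.mem_filter.mp hx).2
      exact Finset.mem_filter.mpr ⟨Finset.mem_univ _, hx'⟩
    · intro x _ y _ hxy
      have h1 : g⁻¹ (x : Om) = g⁻¹ (y : Om) := congrArg Subtype.val hxy
      exact Subtype.ext ((g⁻¹ : Om ≃ₐ[ℚ] Om).injective h1)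
  · -- covering
    intro x
    have halg : IsAlgebraic ℚ z0 := by
      refine ⟨q, hqm.ne_zero, ?_⟩
      rw [hq]
      exact (aeval_map_algebraMap ℚ z0 P).trans hz0
    have hz0mem : z0 ∈ algebraicClosure ℚ ℂ := by
      rw [mem_algebraicClosure_iff]
      convert halg
    let y : Om := ⟨z0, hz0mem⟩
    have hy : minpoly ℚ y = q := hqev y hz0
    have hx : minpoly ℚ (x : Om) = q := hqev _ ((hmem _).mp x.2)
    have hconj : IsConjRoot ℚ (x : Om) y := hx.trans hy.symm
    obtain ⟨g, hg⟩ := hconj.exists_algEquiv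
    refine ⟨g, ?_⟩
    rw [hT, Finset.mem_filter]
    refine ⟨Finset.mem_univ _, ?_⟩
    have h1 : g⁻¹ (x : Om) = y := by rw [← hg, inv_apply_apply]
    rw [h1]
    exact ne_of_gt hz0n
  · -- fixed points
    intro g x hxB hxT
    have h1 : ‖((x : Om) : ℂ)‖ = 1 := by
      by_contra hne
      exact hxB (Finset.mem_filter.mpr ⟨Finset.mem_univ _, hne⟩)
    have h2 : ‖((g⁻¹ (x : Om) : Om) : ℂ)‖ = 1 := by
      by_contra hne
      exact hxT (Finset.mem_filter.mpr ⟨Finset.mem_univ _, hne⟩)
    apply Subtype.ext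
    rw [hh]
    rw [Gal.restrict_smul]
    exact commF_fix κ hκ g x h1 h2
  · -- moved points
    intro g x hxB hxT hfix
    have h1 : ‖((x : Om) : ℂ)‖ = 1 := by
      by_contra hne
      exact hxB (Finset.mem_filter.mpr ⟨Finset.mem_univ _, hne⟩)
    have h2 : ‖((g⁻¹ (x : Om) : Om) : ℂ)‖ ≠ 1 := (Finset.mem_filter.mp hxT).2
    apply commF_move κ hκ g x h1 h2
    have h3 := congrArg (Subtype.val) hfix
    rw [hh] at h3
    rwa [Gal.restrict_smul] at h3

end

end LehmerLevel
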