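import Mathlib

/-!
# Growth of a group along a greedy cover
-/

namespace LehmerLevel

theorem exists_cover_bound {X N ι : Type*} [Fintype X] [DecidableEq X] [Group N] [Finite N]
    [MulAction N X] (B : Finset X) (T : ι → Finset X) (h : ι → N)
    (hcard : ∀ i, (T i).card ≤ B.card) (hcover : ∀ x, ∃ i, x ∈ T i)
    (hfix : ∀ i x, x ∉ B → x ∉ T i → h i • x = x)
    (hmove : ∀ i x, x ∉ B → x ∈ T i → h i • x ≠ x) :
    ∃ m : ℕ, Fintype.card X ≤ B.card * (m + 1) ∧ 2 ^ m ≤ Nat.card N := by
  have key : ∀ (n : ℕ) (U : Finset X) (H : Subgroup N) (k : ℕ), (Uᶜ).card = n → B ⊆ U →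
      U.card ≤ B.card * (k + 1) → (∀ g ∈ H, ∀ x, x ∉ U → g • x = x) → 2 ^ k ≤ Nat.card H →
      ∃ m : ℕ, Fintype.card X ≤ B.card * (m + 1) ∧ 2 ^ m ≤ Nat.card N := by
    intro n
    induction n using Nat.strong_induction_on with
    | _ n ih =>
      intro U H k hn hBU hU hH hk
      by_cases hfull : ∀ x, x ∈ U
      · refine ⟨k, ?_, hk.trans ?_⟩
        · have : U = Finset.univ := Finset.eq_univ_of_forall hfull
          rw [this, Finset.card_univ] at hU
          exact hU
        · exact Subgroup.card_le_card_group H
      · push Not at hfull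
        obtain ⟨x, hx⟩ := hfull
        obtain ⟨i, hi⟩ := hcover x
        have hxB : x ∉ B := fun hb => hx (hBU hb)
        have hnot : h i ∉ H := fun hmem => hmove i x hxB hi (hH _ hmem x hx)
        set H' : Subgroup N := H ⊔ Subgroup.zpowers (h i) with hH'
        have hle : H ≤ H' := le_sup_left
        have hmem : h i ∈ H' :=
          (le_sup_right : Subgroup.zpowers (h i) ≤ H') (Subgroup.mem_zpowers (h i))
        have hdvd : Nat.card H ∣ Nat.card H' := Subgroup.card_dvd_of_le hle
        have hpos : 0 < Nat.card H := Nat.card_pos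
        have hpos' : 0 < Nat.card H' := Nat.card_pos
        have htwo : 2 * Nat.card H ≤ Nat.card H' := by
          obtain ⟨q, hq⟩ := hdvd
          have hq0 : q ≠ 0 := by
            rintro rfl
            rw [mul_zero] at hq
            omega
          have hq1 : q ≠ 1 := by
            rintro rfl
            rw [mul_one] at hq
            have : H = H' := Subgroup.eq_of_le_of_card_ge hle hq.le
            exact hnot (this ▸ hmem)
          have hq2 : 2 ≤ q := by omega
          rw [hq]
          calc 2 * Nat.card H ≤ q * Nat.card H := Nat.mul_le_mul_right _ hq2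
            _ = Nat.card H * q := mul_comm _ _
        refine ih ((U ∪ T i)ᶜ).card ?_ (U ∪ T i) H' (k + 1) rfl
          (hBU.trans Finset.subset_union_left) ?_ ?_ ?_
        · rw [← hn]
          apply Finset.card_lt_card
          rw [Finset.ssubset_iff_of_subset
            (Finset.compl_subset_compl.mpr Finset.subset_union_left)]
          exact ⟨x, Finset.mem_compl.mpr hx, fun hc =>
            (Finset.mem_compl.mp hc) (Finset.mem_union_right _ hi)⟩
        · calc (U ∪ T i).card ≤ U.card + (T i).card := Finset.card_union_le _ _
            _ ≤ B.card * (k + 1) + B.card := Nat.add_le_add hU (hcard i)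
            _ = B.card * (k + 1 + 1) := by ring
        · have hstab : ∀ y, y ∉ U ∪ T i → H' ≤ MulAction.stabilizer N y := by
            intro y hy
            rw [Finset.mem_union, not_or] at hy
            rw [hH', sup_le_iff]
            refine ⟨fun g hg => ?_, ?_⟩
            · exact MulAction.mem_stabilizer_iff.mpr (hH g hg y hy.1)
            · rw [Subgroup.zpowers_le]
              exact MulAction.mem_stabilizer_iff.mpr
                (hfix i y (fun hb => hy.1 (hBU hb)) hy.2)
          intro g hg y hy
          exact MulAction.mem_stabilizer_iff.mp (hstab y hy hg)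
        · rw [pow_succ]
          omega
  exact key _ B ⊥ 0 rfl (Finset.Subset.refl B) (by simp)
    (by intro g hg x _; rw [Subgroup.mem_bot] at hg; rw [hg, one_smul]) (by simp)

end LehmerLevel
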