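import Pool.Agent.Work.MP_30f4fc_nt.Cover

/-!
# The Galois group over a totally real or CM field
-/

namespace LehmerLevel

open Polynomial

noncomputable section

/-- the field of algebraic numbers in `ℂ` -/
abbrev Om : Type := algebraicClosure ℚ ℂ

instance isAlgClosed_Om : IsAlgClosed Om := (algebraicClosure.isAlgClosure ℚ ℂ).isAlgClosed

instance isAlgClosure_Om : IsAlgClosure ℚ Om := by
  have h := algebraicClosure.isAlgClosure ℚ ℂ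
  have e : (DivisionRing.toRatAlgebra : Algebra ℚ Om) = (algebraicClosure ℚ ℂ).algebra' :=
    Subsingleton.elim _ _
  refine ⟨isAlgClosed_Om, ?_⟩
  rw [e]
  exact h.isAlgebraic

instance normal_Om : Normal ℚ Om := IsAlgClosure.normal ℚ Om

/-- complex conjugation on `ℂ` over `ℚ` -/
def conjQ : ℂ ≃ₐ[ℚ] ℂ := Complex.conjAe.restrictScalars ℚ

/-- complex conjugation on the algebraic numbers -/
def cc : Om ≃ₐ[ℚ] Om := conjQ.restrictNormal Om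

lemma coe_cc (x : Om) : ((cc x : Om) : ℂ) = (starRingEnd ℂ) (x : ℂ) :=
  AlgEquiv.restrictNormal_commutes conjQ Om x

lemma cc_cc (x : Om) : cc (cc x) = x := by
  apply Subtype.ext
  rw [coe_cc, coe_cc, Complex.conj_conj]

lemma apply_inv_apply (g : Om ≃ₐ[ℚ] Om) (x : Om) : g (g⁻¹ x) = x := by
  rw [← AlgEquiv.mul_apply, mul_inv_cancel, AlgEquiv.one_apply]

lemma inv_apply_apply (g : Om ≃ₐ[ℚ] Om) (x : Om) : g⁻¹ (g x) = x := by
  rw [← AlgEquiv.mul_apply, inv_mul_cancel, AlgEquiv.one_apply]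

/-- the commutator-like element `c g c g⁻¹` -/
def comm (g : Om ≃ₐ[ℚ] Om) : Om ≃ₐ[ℚ] Om := cc * (g * cc * g⁻¹)

lemma comm_apply (g : Om ≃ₐ[ℚ] Om) (x : Om) : comm g x = cc (g (cc (g⁻¹ x))) := rfl

variable {F : Type*} [Field F] [Algebra F Om]

lemma comm_algebraMap (κ : F → F)
    (hκ : ∀ (φ : F →+* ℂ) (x : F), φ (κ x) = (starRingEnd ℂ) (φ x)) (g : Om ≃ₐ[ℚ] Om) (a : F) :
    comm g (algebraMap F Om a) = algebraMap F Om a := by
  rw [comm_apply]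
  have h1 : cc (g⁻¹ (algebraMap F Om a)) = g⁻¹ (algebraMap F Om (κ a)) := by
    apply Subtype.ext
    rw [coe_cc]
    exact (hκ (((algebraMap Om ℂ).comp ((g⁻¹ : Om ≃ₐ[ℚ] Om) : Om →+* Om)).comp
      (algebraMap F Om)) a).symm
  have h2 : cc (algebraMap F Om a) = algebraMap F Om (κ a) := by
    apply Subtype.ext
    rw [coe_cc]
    exact (hκ ((algebraMap Om ℂ).comp (algebraMap F Om)) a).symm
  rw [h1, apply_inv_apply, ← h2, cc_cc]

/-- `comm g` as an automorphism over `F`. -/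
def commF (κ : F → F)
    (hκ : ∀ (φ : F →+* ℂ) (x : F), φ (κ x) = (starRingEnd ℂ) (φ x)) (g : Om ≃ₐ[ℚ] Om) :
    Om ≃ₐ[F] Om :=
  AlgEquiv.ofRingEquiv (f := (comm g).toRingEquiv) (comm_algebraMap κ hκ g)

lemma commF_apply (κ : F → F)
    (hκ : ∀ (φ : F →+* ℂ) (x : F), φ (κ x) = (starRingEnd ℂ) (φ x)) (g : Om ≃ₐ[ℚ] Om) (x : Om) :
    commF κ hκ g x = cc (g (cc (g⁻¹ x))) := rfl

lemma cc_eq_inv {x : Om} (hx : ‖(x : ℂ)‖ = 1) : cc x = x⁻¹ := by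
  apply Subtype.ext
  rw [coe_cc]
  have h1 : (x : ℂ)⁻¹ = (starRingEnd ℂ) (x : ℂ) := by
    rw [Complex.inv_def, Complex.normSq_eq_norm_sq, hx]; simp
  rw [← h1]; rfl

lemma norm_of_cc_eq_inv {x : Om} (hx0 : x ≠ 0) (hx : cc x = x⁻¹) : ‖(x : ℂ)‖ = 1 := by
  have h1 : (starRingEnd ℂ) (x : ℂ) = (x : ℂ)⁻¹ := by
    rw [← coe_cc, hx]; rfl
  have hx0' : (x : ℂ) ≠ 0 := fun h => hx0 (Subtype.ext h)
  have h2 : (x : ℂ) * (starRingEnd ℂ) (x : ℂ) = 1 := by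
    rw [h1, mul_inv_cancel₀ hx0']
  rw [Complex.mul_conj, Complex.normSq_eq_norm_sq] at h2
  have h3 : ‖(x : ℂ)‖ ^ 2 = 1 := by exact_mod_cast h2
  have := norm_nonneg (x : ℂ)
  nlinarith

lemma commF_fix (κ : F → F)
    (hκ : ∀ (φ : F →+* ℂ) (x : F), φ (κ x) = (starRingEnd ℂ) (φ x)) (g : Om ≃ₐ[ℚ] Om) (x : Om)
    (h1 : ‖(x : ℂ)‖ = 1) (h2 : ‖((g⁻¹ x : Om) : ℂ)‖ = 1) : commF κ hκ g x = x := by
  rw [commF_apply, cc_eq_inv h2, map_inv₀ g, apply_inv_apply, ← cc_eq_inv h1, cc_cc]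

lemma commF_move (κ : F → F)
    (hκ : ∀ (φ : F →+* ℂ) (x : F), φ (κ x) = (starRingEnd ℂ) (φ x)) (g : Om ≃ₐ[ℚ] Om) (x : Om)
    (h1 : ‖(x : ℂ)‖ = 1) (h2 : ‖((g⁻¹ x : Om) : ℂ)‖ ≠ 1) : commF κ hκ g x ≠ x := by
  intro h
  apply h2
  have hx0 : x ≠ 0 := by
    rintro rfl
    simp at h1
  have hgx0 : g⁻¹ x ≠ 0 := fun h0 => hx0 (by
    have := congrArg g h0
    rwa [apply_inv_apply, map_zero] at this)
  apply norm_of_cc_eq_inv hgx0
  rw [commF_apply] at h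
  have h3 : g (cc (g⁻¹ x)) = x⁻¹ := by
    rw [← cc_eq_inv h1]
    conv_rhs => rw [← h]
    rw [cc_cc]
  have h4 := congrArg (g⁻¹ : Om ≃ₐ[ℚ] Om) h3
  rw [inv_apply_apply] at h4
  rw [h4, map_inv₀]

end

end LehmerLevel
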