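import Mathlib

/-! Lower bound for the order of a transitive permutation group containing, up to a central
involution, an element of small support. -/

namespace LehmerGal

open Equiv Finset

theorem doubling_aux {R : Type*} [Fintype R] [DecidableEq R] (Γ : Subgroup (Perm R)) (N : ℕ)
    (h : ∀ x : R, ∃ t ∈ Γ, t x ≠ x ∧ t.support.card ≤ N) (k : ℕ) :
    N * (k - 1) < Fintype.card R → ∃ W : Finset (Perm R), (∀ w ∈ W, w ∈ Γ) ∧ W.card = 2 ^ k ∧
      ∃ A : Finset R, A.card ≤ N * k ∧ ∀ w ∈ W, ∀ x, x ∉ A → w x = x := by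
  classical
  induction k with
  | zero =>
    intro _
    refine ⟨{1}, ?_, by simp, ∅, by simp, ?_⟩
    · intro w hw
      rw [mem_singleton] at hw
      rw [hw]
      exact Γ.one_mem
    · intro w hw x _
      rw [mem_singleton] at hw
      rw [hw]
      rfl
  | succ k ih =>
    intro hk
    have hk' : N * k < Fintype.card R := by simpa using hk
    obtain ⟨W, hWΓ, hWc, A, hA, hfix⟩ := ih (lt_of_le_of_lt (Nat.mul_le_mul_left N (by omega)) hk')
    obtain ⟨x, hx⟩ : ∃ x, x ∉ A := by
      by_contra hcon
      push Not at hcon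
      have : A = univ := by
        ext y
        simp [hcon y]
      rw [this, card_univ] at hA
      omega
    obtain ⟨t, htΓ, htx, htN⟩ := h x
    have hinj : Function.Injective (fun w : Perm R => t * w) := fun a b hab => mul_left_cancel hab
    have hdisj : Disjoint W (W.image (fun w => t * w)) := by
      rw [Finset.disjoint_left]
      intro w hw hw'
      rw [mem_image] at hw'
      obtain ⟨w', hw'W, hw'e⟩ := hw'
      have h1 : w x = x := hfix w hw x hx
      have h2 : w' x = x := hfix w' hw'W x hx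
      rw [← hw'e, Perm.mul_apply, h2] at h1
      exact htx h1
    refine ⟨W ∪ W.image (fun w => t * w), ?_, ?_, A ∪ t.support, ?_, ?_⟩
    · intro w hw
      rw [mem_union, mem_image] at hw
      rcases hw with hw | ⟨w', hw', rfl⟩
      · exact hWΓ w hw
      · exact Γ.mul_mem htΓ (hWΓ w' hw')
    · rw [card_union_of_disjoint hdisj, card_image_of_injective _ hinj, hWc]
      ring
    · calc (A ∪ t.support).card ≤ A.card + t.support.card := card_union_le _ _
        _ ≤ N * k + N := by omega
        _ = N * (k + 1) := by ring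
    · intro w hw y hy
      rw [mem_union, not_or] at hy
      have hty : t y = y := by
        by_contra hne
        exact hy.2 (Perm.mem_support.2 hne)
      rw [mem_union, mem_image] at hw
      rcases hw with hw | ⟨w', hw', rfl⟩
      · exact hfix w hw y hy.1
      · rw [Perm.mul_apply, hfix w' hw' y hy.1, hty]

theorem doubling {R : Type*} [Fintype R] [DecidableEq R] (Γ : Subgroup (Perm R)) (N : ℕ)
    (h : ∀ x : R, ∃ t ∈ Γ, t x ≠ x ∧ t.support.card ≤ N) (k : ℕ) (hk : N * k < Fintype.card R) :
    2 ^ (k + 1) ≤ Nat.card Γ := by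
  classical
  obtain ⟨W, hWΓ, hWc, -⟩ := doubling_aux Γ N h (k + 1) (by simpa using hk)
  rw [← hWc]
  have : W.card = ((W.attach).image (fun w => (⟨w.1, hWΓ w.1 w.2⟩ : Γ))).card := by
    rw [card_image_of_injective, card_attach]
    intro a b hab
    exact Subtype.ext (by simpa using hab)
  rw [this, Nat.card_eq_fintype_card]
  exact card_le_univ _

/-- Main group theoretic statement. -/
theorem two_pow_le_card {R G : Type*} [Fintype R] [DecidableEq R] [Group G] [Finite G]
    (σ : G →* Perm R) (htrans : ∀ x y : R, ∃ g, σ g x = y) (ι : Perm R) (hι : ι * ι = 1)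
    (hcomm : ∀ g, σ g * ι = ι * σ g) (c : G) (y0 : R) (hy0 : (σ c * ι) y0 ≠ y0) (k : ℕ)
    (hk : (σ c * ι).support.card * k < Fintype.card R) : 2 ^ k ≤ Nat.card G := by
  classical
  set t := σ c * ι with ht
  have hcz : ∀ (m : G) (n : Subgroup.zpowers ι), Commute (σ m) ((Subgroup.zpowers ι).subtype n) := by
    rintro m ⟨n, hn⟩
    obtain ⟨j, rfl⟩ := Subgroup.mem_zpowers_iff.1 hn
    exact (show Commute (σ m) ι from hcomm m).zpow_right j
  set Φ := MonoidHom.noncommCoprod σ (Subgroup.zpowers ι).subtype hcz with hΦ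
  have hι2 : Nat.card (Subgroup.zpowers ι) ≤ 2 := by
    rw [Nat.card_zpowers]
    exact orderOf_le_of_pow_eq_one (by norm_num) (by rw [pow_two]; exact hι)
  have hcard : Nat.card Φ.range ≤ 2 * Nat.card G := by
    calc Nat.card Φ.range ≤ Nat.card (G × Subgroup.zpowers ι) :=
          Nat.card_le_card_of_surjective Φ.rangeRestrict Φ.rangeRestrict_surjective
      _ = Nat.card G * Nat.card (Subgroup.zpowers ι) := Nat.card_prod _ _
      _ ≤ Nat.card G * 2 := Nat.mul_le_mul_left _ hι2
      _ = 2 * Nat.card G := by ring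
  have hmain : 2 ^ (k + 1) ≤ Nat.card Φ.range := by
    apply doubling Φ.range t.support.card _ k hk
    intro x
    obtain ⟨g, hg⟩ := htrans y0 x
    refine ⟨σ g * t * (σ g)⁻¹, ?_, ?_, ?_⟩
    · refine ⟨(g * c * g⁻¹, ⟨ι, Subgroup.mem_zpowers ι⟩), ?_⟩
      have h1 : σ g * t * (σ g)⁻¹ = σ (g * c * g⁻¹) * ι := by
        have h2 := hcomm g⁻¹
        rw [ht, map_mul, map_mul, map_inv] at *
        rw [mul_assoc (σ g), mul_assoc (σ c), ← h2]
        group
      rw [h1, hΦ]
      rfl
    · intro he
      apply hy0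
      rw [Perm.mul_apply, Perm.mul_apply] at he
      have h3 : (σ g)⁻¹ x = y0 := Perm.inv_eq_iff_eq.2 hg.symm
      rw [h3] at he
      apply (σ g).injective
      rw [he, hg]
    · exact le_of_eq Perm.card_support_conj
  have : 2 * 2 ^ k ≤ 2 * Nat.card G := by
    calc 2 * 2 ^ k = 2 ^ (k + 1) := by ring
      _ ≤ _ := hmain.trans hcard
  omega

end LehmerGal
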