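import Mathlib
import Pool.Agent.Work.MP_30f4fc_nt.GroupPart

/-! The Galois group of an irreducible polynomial whose root set is closed under inversion. -/

namespace LehmerGal

open Polynomial

section

variable (p : ℚ[X]) [Fact ((p.map (algebraMap ℚ ℂ)).Splits)]

theorem smul_mul_smul (g : p.Gal) (x y : p.rootSet ℂ) (h : (x : ℂ) * y = 1) :
    ((g • x : p.rootSet ℂ) : ℂ) * (g • y : p.rootSet ℂ) = 1 := by
  obtain ⟨x', rfl⟩ := (Gal.rootsEquivRoots p ℂ).surjective x
  obtain ⟨y', rfl⟩ := (Gal.rootsEquivRoots p ℂ).surjective y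
  have h1 : (x' : p.SplittingField) * y' = 1 := by
    apply (algebraMap p.SplittingField ℂ).injective
    rw [map_mul, map_one]
    exact h
  have h2 : g (x' : p.SplittingField) * g y' = 1 := by rw [← map_mul, h1, map_one]
  have h3 := congrArg (algebraMap p.SplittingField ℂ) h2
  rw [map_mul, map_one] at h3
  rw [Gal.smul_def, Gal.smul_def, Equiv.symm_apply_apply, Equiv.symm_apply_apply]
  exact h3

/-- Inversion on the roots. -/
noncomputable def invPerm (hinv : ∀ z ∈ p.rootSet ℂ, z⁻¹ ∈ p.rootSet ℂ) :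
    Equiv.Perm (p.rootSet ℂ) where
  toFun x := ⟨(x : ℂ)⁻¹, hinv x x.2⟩
  invFun x := ⟨(x : ℂ)⁻¹, hinv x x.2⟩
  left_inv _ := Subtype.ext (inv_inv _)
  right_inv _ := Subtype.ext (inv_inv _)

theorem gal_bound (hirr : Irreducible p) (h0 : ∀ z ∈ p.rootSet ℂ, z ≠ 0)
    (hinv : ∀ z ∈ p.rootSet ℂ, z⁻¹ ∈ p.rootSet ℂ) (y0 : p.rootSet ℂ) (hy0 : 1 < ‖(y0 : ℂ)‖) (k : ℕ)
    (hk : 2 * (Finset.univ.filter (fun x : p.rootSet ℂ => 1 < ‖(x : ℂ)‖)).card * k
      < p.natDegree) : 2 ^ k ≤ Nat.card p.Gal := by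
  classical
  set ι := invPerm p hinv with hιdef
  set c : p.Gal := Gal.restrict p ℂ (Complex.conjAe.restrictScalars ℚ) with hc
  have hιv : ∀ x : p.rootSet ℂ, ((ι x : p.rootSet ℂ) : ℂ) = (x : ℂ)⁻¹ := fun x => rfl
  have hcv : ∀ x : p.rootSet ℂ, ((Gal.galActionHom p ℂ c x : p.rootSet ℂ) : ℂ)
      = (starRingEnd ℂ) (x : ℂ) := fun x => Gal.galActionHom_restrict p ℂ _ x
  have htv : ∀ x : p.rootSet ℂ, (((Gal.galActionHom p ℂ c * ι) x : p.rootSet ℂ) : ℂ)
      = (starRingEnd ℂ) ((x : ℂ)⁻¹) := fun x => by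
    rw [Equiv.Perm.mul_apply, hcv, hιv]
  have hfix : ∀ x : p.rootSet ℂ, (Gal.galActionHom p ℂ c * ι) x ≠ x ↔ ‖(x : ℂ)‖ ≠ 1 := by
    intro x
    have hx0 : (x : ℂ) ≠ 0 := h0 x x.2
    rw [not_iff_not, Subtype.ext_iff, htv]
    constructor
    · intro h
      have h1 : ‖(x : ℂ)‖⁻¹ = ‖(x : ℂ)‖ := by
        rw [← norm_inv, ← RCLike.norm_conj, h]
      have h2 : 0 < ‖(x : ℂ)‖ := norm_pos_iff.2 hx0
      have h3 : ‖(x : ℂ)‖ * ‖(x : ℂ)‖ = 1 := by
        nth_rewrite 1 [← h1]
        exact inv_mul_cancel₀ h2.ne'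
      nlinarith
    · intro h
      have h1 : (x : ℂ) * (starRingEnd ℂ) (x : ℂ) = 1 := by
        rw [Complex.mul_conj, Complex.normSq_eq_norm_sq, h]; norm_num
      rw [map_inv₀]
      exact (eq_inv_of_mul_eq_one_left h1).symm
  have hsupp : (Gal.galActionHom p ℂ c * ι).support.card
      ≤ 2 * (Finset.univ.filter (fun x : p.rootSet ℂ => 1 < ‖(x : ℂ)‖)).card := by
    set A := Finset.univ.filter (fun x : p.rootSet ℂ => 1 < ‖(x : ℂ)‖) with hA
    have hsub : (Gal.galActionHom p ℂ c * ι).support ⊆ A ∪ A.image ι := by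
      intro x hx
      rw [Equiv.Perm.mem_support, hfix] at hx
      rw [Finset.mem_union]
      rcases lt_or_gt_of_ne hx with h | h
      · right
        rw [Finset.mem_image]
        refine ⟨ι x, ?_, ?_⟩
        · rw [hA, Finset.mem_filter, hιv, norm_inv]
          refine ⟨Finset.mem_univ _, ?_⟩
          exact (one_lt_inv₀ (norm_pos_iff.2 (h0 x x.2))).2 h
        · apply Subtype.ext
          rw [hιv, hιv, inv_inv]
      · left
        rw [hA, Finset.mem_filter]
        exact ⟨Finset.mem_univ _, h⟩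
    calc _ ≤ (A ∪ A.image ι).card := Finset.card_le_card hsub
      _ ≤ A.card + (A.image ι).card := Finset.card_union_le _ _
      _ ≤ A.card + A.card := Nat.add_le_add_left Finset.card_image_le _
      _ = 2 * A.card := by ring
  have htrans := Gal.galAction_isPretransitive p ℂ hirr
  refine two_pow_le_card (Gal.galActionHom p ℂ) (fun x y => htrans.exists_smul_eq x y) ι ?_ ?_ c y0
    ?_ k ?_
  · apply Equiv.ext
    intro x
    apply Subtype.ext
    rw [Equiv.Perm.mul_apply, hιv, hιv, inv_inv, Equiv.Perm.one_apply]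
  · intro g
    apply Equiv.ext
    intro x
    apply Subtype.ext
    rw [Equiv.Perm.mul_apply, Equiv.Perm.mul_apply, hιv]
    have h1 := smul_mul_smul p g x (ι x) (by rw [hιv]; exact mul_inv_cancel₀ (h0 x x.2))
    exact (inv_eq_of_mul_eq_one_right h1).symm
  · rw [hfix]; exact ne_of_gt hy0
  · calc (Gal.galActionHom p ℂ c * ι).support.card * k
        ≤ 2 * (Finset.univ.filter (fun x : p.rootSet ℂ => 1 < ‖(x : ℂ)‖)).card * k :=
          Nat.mul_le_mul_right k hsupp
      _ < p.natDegree := hk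
      _ = Fintype.card (p.rootSet ℂ) :=
        (card_rootSet_eq_natDegree hirr.separable Fact.out).symm

end

end LehmerGal
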