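import Pool.Agent.Work.MP_30f4fc_nt.Blaschke

/-!
# A lower bound for the Mahler measure of nonreciprocal polynomials
-/

namespace LehmerLevel

open Polynomial

noncomputable section

lemma num_add (s t : Multiset ℂ) : num (s + t) = num s * num t := by
  simp [num, Multiset.map_add, Multiset.prod_add]

lemma den_add (s t : Multiset ℂ) : den (s + t) = den s * den t := by
  simp [den, Multiset.map_add, Multiset.prod_add]

lemma coe_prod (s : Multiset ℂ) :
    (((s.map fun a => (X - C a : ℂ[X])).prod : ℂ[X]) : PowerSeries ℂ) = num s := by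
  induction s using Multiset.induction with
  | empty => simp [num]
  | cons a t ih =>
    simp only [num, Multiset.map_cons, Multiset.prod_cons] at ih ⊢
    rw [Polynomial.coe_mul, ih]; simp

lemma reverse_X_sub_C (a : ℂ) : (X - C a : ℂ[X]).reverse = 1 - C a * X := by
  have h : (X - C a : ℂ[X]) = (1 : ℂ[X]) * X + C (-a) := by rw [C_neg]; ring
  have h1 : (1 : ℂ[X]).reverse = 1 := by
    have := Polynomial.reverse_C (1 : ℂ)
    simpa using this
  rw [h, Polynomial.reverse_add_C, reverse_mul_X, h1, one_mul, natDegree_X, C_neg, pow_one]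
  ring

lemma coe_reverse_prod (s : Multiset ℂ) :
    ((((s.map fun a => (X - C a : ℂ[X])).prod).reverse : ℂ[X]) : PowerSeries ℂ) = den s := by
  induction s using Multiset.induction with
  | empty =>
    have h1 : (1 : ℂ[X]).reverse = 1 := by
      have := Polynomial.reverse_C (1 : ℂ)
      simpa using this
    simp [den, h1]
  | cons a t ih =>
    simp only [den, Multiset.map_cons, Multiset.prod_cons] at ih ⊢
    rw [Polynomial.reverse_mul_of_domain, Polynomial.coe_mul, ih, reverse_X_sub_C]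
    simp

lemma den_mul_den_inv (s : Multiset ℂ) (hs : ∀ b ∈ s, b ≠ 0) :
    den s * den (s.map (·⁻¹)) = num s * num (s.map (·⁻¹)) := by
  induction s using Multiset.induction with
  | empty => simp [den, num]
  | cons b t ih =>
    have hb : b ≠ 0 := hs b (Multiset.mem_cons_self b t)
    have ht := ih fun c hc => hs c (Multiset.mem_cons_of_mem hc)
    simp only [den, num, Multiset.map_cons, Multiset.prod_cons, Multiset.map_map] at ht ⊢
    have e : ((1 : PowerSeries ℂ) - PowerSeries.C b * PowerSeries.X)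
          * (1 - PowerSeries.C b⁻¹ * PowerSeries.X)
        = (PowerSeries.X - PowerSeries.C b) * (PowerSeries.X - PowerSeries.C b⁻¹) := by
      have h1 : (PowerSeries.C b : PowerSeries ℂ) * PowerSeries.C b⁻¹ = 1 := by
        rw [← map_mul, mul_inv_cancel₀ hb, map_one]
      linear_combination (PowerSeries.X ^ 2 - 1) * h1
    linear_combination ((Multiset.map (fun a => (1 : PowerSeries ℂ)
        - PowerSeries.C a * PowerSeries.X) t).prod
      * (Multiset.map ((fun a => (1 : PowerSeries ℂ) - PowerSeries.C a * PowerSeries.X)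
        ∘ fun x => x⁻¹) t).prod) * e
      + (PowerSeries.X - PowerSeries.C b) * (PowerSeries.X - PowerSeries.C b⁻¹) * ht

lemma splitsC (Q : ℂ[X]) : Q.Splits := IsAlgClosed.splits Q

/-- `1/M ≤ 2 (1 - 1/M²)` for a nonreciprocal integer polynomial without roots on the circle. -/
theorem smyth_ineq (P : ℤ[X]) (hm : P.Monic) (e : ℤ) (he : e = 1 ∨ e = -1) (h0 : P.coeff 0 = e)
    (hrev : P ≠ C e * P.reverse)
    (hcirc : ∀ z ∈ (P.map (Int.castRingHom ℂ)).roots, ‖z‖ ≠ 1) :
    ((P.map (Int.castRingHom ℂ)).mahlerMeasure)⁻¹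
      ≤ 2 * (1 - (((P.map (Int.castRingHom ℂ)).mahlerMeasure)⁻¹) ^ 2) := by
  classical
  set Q : ℂ[X] := P.map (Int.castRingHom ℂ) with hQdef
  have hQm : Q.Monic := hm.map _
  set R := Q.roots with hR
  have hQprod : Q = (R.map fun a => (X - C a : ℂ[X])).prod :=
    (splitsC Q).eq_prod_roots_of_monic hQm
  -- roots are closed under conjugation
  have hconj : R.map (starRingEnd ℂ) = R := by
    have h1 : Q.map (starRingEnd ℂ) = Q := by
      rw [hQdef, Polynomial.map_map]
      congr 1
      exact RingHom.ext_int _ _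
    have := (splitsC Q).roots_map (starRingEnd ℂ)
    rw [h1] at this
    exact this.symm
  set In := R.filter (fun z => ‖z‖ < 1) with hIn
  set Out := R.filter (fun z => 1 < ‖z‖) with hOut
  have hsplit : R = In + Out := by
    have h1 := Multiset.filter_add_not (fun z : ℂ => ‖z‖ < 1) R
    rw [← h1, hIn, hOut]
    congr 1
    apply Multiset.filter_congr
    intro z hz
    have := hcirc z hz
    constructor
    · intro h
      exact lt_of_le_of_ne (not_lt.mp h) (Ne.symm this)
    · intro h
      exact not_lt.mpr h.le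
  have hInc : In.map (starRingEnd ℂ) = In := by
    have : (R.map (starRingEnd ℂ)).filter (fun z => ‖z‖ < 1) = In := by rw [hconj]
    rw [Multiset.filter_map] at this
    have e1 : R.filter ((fun z : ℂ => ‖z‖ < 1) ∘ (starRingEnd ℂ)) = In := by
      rw [hIn]
      apply Multiset.filter_congr
      intro z _
      simp
    rwa [e1] at this
  have hOutc : Out.map (starRingEnd ℂ) = Out := by
    have : (R.map (starRingEnd ℂ)).filter (fun z => 1 < ‖z‖) = Out := by rw [hconj]
    rw [Multiset.filter_map] at this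
    have e1 : R.filter ((fun z : ℂ => 1 < ‖z‖) ∘ (starRingEnd ℂ)) = Out := by
      rw [hOut]
      apply Multiset.filter_congr
      intro z _
      simp
    rwa [e1] at this
  set Out' := Out.map (·⁻¹) with hOut'
  have hOutc' : Out'.map (starRingEnd ℂ) = Out' := by
    conv_rhs => rw [hOut', ← hOutc]
    rw [hOut', Multiset.map_map, Multiset.map_map]
    apply Multiset.map_congr rfl
    intro z _
    simp
  have hInle : ∀ a ∈ In, ‖a‖ ≤ 1 := fun a ha => (Multiset.mem_filter.mp ha).2.le
  have hOutgt : ∀ b ∈ Out, 1 < ‖b‖ := fun b hb => (Multiset.mem_filter.mp hb).2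
  have hOut0 : ∀ b ∈ Out, b ≠ 0 := fun b hb h => by
    have := hOutgt b hb
    rw [h, norm_zero] at this
    linarith
  have hOutle : ∀ a ∈ Out', ‖a‖ ≤ 1 := by
    intro a ha
    obtain ⟨b, hb, rfl⟩ := Multiset.mem_map.mp ha
    rw [norm_inv]
    exact inv_le_one_of_one_le₀ (hOutgt b hb).le
  -- the two Blaschke products
  obtain ⟨u1, hu1⟩ := isUnit_den In
  obtain ⟨u2, hu2⟩ := isUnit_den Out'
  set f1 : PowerSeries ℂ := num In * ↑u1⁻¹ with hf1def
  set f2 : PowerSeries ℂ := num Out' * ↑u2⁻¹ with hf2def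
  have hf1 : f1 * den In = num In := by
    rw [hf1def, ← hu1, mul_assoc, Units.inv_mul, mul_one]
  have hf2 : f2 * den Out' = num Out' := by
    rw [hf2def, ← hu2, mul_assoc, Units.inv_mul, mul_one]
  clear_value f1 f2
  have hf2' : f2 * num Out = den Out := by
    have h1 : f2 * num Out * den Out' = den Out * den Out' := by
      calc f2 * num Out * den Out' = (f2 * den Out') * num Out := by ring
        _ = num Out' * num Out := by rw [hf2]
        _ = den Out * den Out' := by rw [hOut', den_mul_den_inv Out hOut0]; ring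
    exact (isUnit_den Out').mul_left_injective h1
  have hrel : f1 * den R = f2 * num R := by
    rw [hsplit, den_add, num_add]
    calc f1 * (den In * den Out) = (f1 * den In) * den Out := by ring
      _ = num In * den Out := by rw [hf1]
      _ = num In * (f2 * num Out) := by rw [hf2']
      _ = f2 * (num In * num Out) := by ring
  -- constant terms
  have hQcoe : (Q : PowerSeries ℂ) = num R := by rw [← coe_prod, ← hQprod]
  have hQrev : (Q.reverse : PowerSeries ℂ) = den R := by rw [← coe_reverse_prod, ← hQprod]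
  have hc1 : PowerSeries.coeff 0 f1 = PowerSeries.constantCoeff (num In) := by
    rw [PowerSeries.coeff_zero_eq_constantCoeff_apply, ← hf1, map_mul, constantCoeff_den, mul_one]
  have hc2 : PowerSeries.coeff 0 f2 = PowerSeries.constantCoeff (num Out') := by
    rw [PowerSeries.coeff_zero_eq_constantCoeff_apply, ← hf2, map_mul, constantCoeff_den, mul_one]
  set m : ℝ := (Out.map fun a => ‖a‖).prod with hmdef
  have hM : Q.mahlerMeasure = m := by
    rw [Polynomial.mahlerMeasure_eq_leadingCoeff_mul_prod_roots, hQm.leadingCoeff, norm_one, one_mul,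
      ← hR, hsplit, Multiset.map_add, Multiset.prod_add]
    have h1 : (In.map fun a => max 1 ‖a‖) = In.map fun _ => (1 : ℝ) :=
      Multiset.map_congr rfl fun a ha => max_eq_left (hInle a ha)
    have h2 : (Out.map fun a => max 1 ‖a‖) = Out.map fun a => ‖a‖ :=
      Multiset.map_congr rfl fun a ha => max_eq_right (hOutgt a ha).le
    rw [h1, h2]
    simp [hmdef]
  have hm0 : 0 < m := by
    rw [← hM]
    exact Polynomial.mahlerMeasure_pos_of_ne_zero hQm.ne_zero
  have hIOprod : (In.map fun a => ‖a‖).prod * m = 1 := by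
    rw [hmdef, ← Multiset.prod_add, ← Multiset.map_add, ← hsplit, ← norm_constantCoeff_num,
      ← hQcoe]
    have : PowerSeries.constantCoeff (Q : PowerSeries ℂ) = Q.coeff 0 := by simp
    rw [this, hQdef, Polynomial.coeff_map, h0]
    rcases he with h | h <;> simp [h]
  have hn1 : ‖PowerSeries.coeff 0 f1‖ = m⁻¹ := by
    rw [hc1, norm_constantCoeff_num]
    exact eq_inv_of_mul_eq_one_left hIOprod
  have hn2 : ‖PowerSeries.coeff 0 f2‖ = m⁻¹ := by
    rw [hc2, norm_constantCoeff_num, hOut', Multiset.map_map, hmdef]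
    have : (Out.map ((fun a => ‖a‖) ∘ fun x => x⁻¹)) = Out.map fun a => ‖a‖⁻¹ :=
      Multiset.map_congr rfl fun a _ => by simp
    rw [this]
    exact Multiset.prod_map_inv
  -- the difference polynomial
  set D : ℤ[X] := P - C e * P.reverse with hD
  have hD0 : D ≠ 0 := sub_ne_zero.mpr hrev
  set k := D.natTrailingDegree with hk
  have hDk : D.coeff k ≠ 0 := by
    have h1 : D.trailingCoeff ≠ 0 := Polynomial.trailingCoeff_nonzero_iff_nonzero.mpr hD0
    exact h1
  have hk0 : k ≠ 0 := by
    intro h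
    apply hDk
    rw [h, hD, coeff_sub, coeff_C_mul, coeff_zero_reverse, hm.leadingCoeff, h0]
    ring
  have hDmap : ((D.map (Int.castRingHom ℂ) : ℂ[X]) : PowerSeries ℂ)
      = num R - PowerSeries.C (e : ℂ) * den R := by
    have h1 : D.map (Int.castRingHom ℂ) = Q - C (e : ℂ) * Q.reverse := by
      have h2 : (P.reverse).map (Int.castRingHom ℂ) = Q.reverse := by
        rw [hQdef, Polynomial.reverse, Polynomial.reverse, Polynomial.reflect_map,
          hm.natDegree_map]
      rw [hD, Polynomial.map_sub, Polynomial.map_mul, h2, Polynomial.map_C, ← hQdef]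
      rfl
    rw [h1, ← hQcoe, ← hQrev, Polynomial.coe_sub, Polynomial.coe_mul, Polynomial.coe_C]
  have hrel2 : (f1 - PowerSeries.C (e : ℂ) * f2) * den R
      = f2 * ((D.map (Int.castRingHom ℂ) : ℂ[X]) : PowerSeries ℂ) := by
    rw [hDmap, sub_mul, hrel]; ring
  obtain ⟨D', hD'⟩ : (PowerSeries.X ^ k : PowerSeries ℂ) ∣
      ((D.map (Int.castRingHom ℂ) : ℂ[X]) : PowerSeries ℂ) := by
    rw [PowerSeries.X_pow_dvd_iff]
    intro i hi
    rw [Polynomial.coeff_coe, Polynomial.coeff_map,
      Polynomial.coeff_eq_zero_of_lt_natTrailingDegree hi, map_zero]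
  have hD'0 : PowerSeries.constantCoeff D' = (D.coeff k : ℂ) := by
    have h1 : PowerSeries.coeff k ((D.map (Int.castRingHom ℂ) : ℂ[X]) : PowerSeries ℂ)
        = (D.coeff k : ℂ) := by
      rw [Polynomial.coeff_coe, Polynomial.coeff_map]; simp
    rw [hD', PowerSeries.coeff_X_pow_mul'] at h1
    simpa using h1
  obtain ⟨u, hu⟩ := isUnit_den R
  have hrel3 : f1 - PowerSeries.C (e : ℂ) * f2 = PowerSeries.X ^ k * (f2 * D' * (↑u⁻¹ : PowerSeries ℂ)) := by
    have h1 : (f1 - PowerSeries.C (e : ℂ) * f2) * (↑u : PowerSeries ℂ)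
        = PowerSeries.X ^ k * (f2 * D') := by
      rw [hu, hrel2, hD']; ring
    calc f1 - PowerSeries.C (e : ℂ) * f2
        = (f1 - PowerSeries.C (e : ℂ) * f2) * (↑u : PowerSeries ℂ) * (↑u⁻¹ : PowerSeries ℂ) := by
          rw [mul_assoc, Units.mul_inv, mul_one]
      _ = PowerSeries.X ^ k * (f2 * D' * (↑u⁻¹ : PowerSeries ℂ)) := by rw [h1]; ring
  have hu0 : PowerSeries.constantCoeff (↑u⁻¹ : PowerSeries ℂ) = 1 := by
    have h1 : PowerSeries.constantCoeff ((↑u : PowerSeries ℂ) * (↑u⁻¹ : PowerSeries ℂ)) = 1 := by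
      rw [Units.mul_inv]; simp
    rw [map_mul, hu, constantCoeff_den, one_mul] at h1
    exact h1
  have hck : PowerSeries.coeff k f1 - (e : ℂ) * PowerSeries.coeff k f2
      = PowerSeries.coeff 0 f2 * (D.coeff k : ℂ) := by
    have h1 : PowerSeries.coeff k (f1 - PowerSeries.C (e : ℂ) * f2)
        = PowerSeries.coeff k f1 - (e : ℂ) * PowerSeries.coeff k f2 := by
      rw [map_sub, PowerSeries.coeff_C_mul]
    rw [← h1, hrel3, PowerSeries.coeff_X_pow_mul', if_pos le_rfl, Nat.sub_self]
    rw [PowerSeries.coeff_zero_eq_constantCoeff_apply, map_mul, map_mul, hu0, hD'0, mul_one,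
      PowerSeries.coeff_zero_eq_constantCoeff_apply]
  have hb1 := coeff_le In hInle hInc f1 hf1 k hk0
  have hb2 := coeff_le Out' hOutle hOutc' f2 hf2 k hk0
  rw [hn1] at hb1
  rw [hn2] at hb2
  have hnormD : 1 ≤ ‖(D.coeff k : ℂ)‖ := by
    rw [Complex.norm_intCast]
    exact_mod_cast Int.one_le_abs hDk
  have hnorme : ‖(e : ℂ)‖ = 1 := by rcases he with h | h <;> simp [h]
  have hfin : m⁻¹ * ‖(D.coeff k : ℂ)‖ ≤ 2 * (1 - m⁻¹ ^ 2) := by
    calc m⁻¹ * ‖(D.coeff k : ℂ)‖ = ‖PowerSeries.coeff 0 f2 * (D.coeff k : ℂ)‖ := by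
          rw [norm_mul, hn2]
      _ = ‖PowerSeries.coeff k f1 - (e : ℂ) * PowerSeries.coeff k f2‖ := by rw [hck]
      _ ≤ ‖PowerSeries.coeff k f1‖ + ‖(e : ℂ) * PowerSeries.coeff k f2‖ := norm_sub_le _ _
      _ = ‖PowerSeries.coeff k f1‖ + ‖PowerSeries.coeff k f2‖ := by
          rw [norm_mul, hnorme, one_mul]
      _ ≤ 2 * (1 - m⁻¹ ^ 2) := by linarith
  rw [hM]
  have hminv : 0 < m⁻¹ := inv_pos.mpr hm0
  nlinarith

theorem smyth_bound (P : ℤ[X]) (hm : P.Monic) (e : ℤ) (he : e = 1 ∨ e = -1) (h0 : P.coeff 0 = e)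
    (hrev : P ≠ C e * P.reverse)
    (hcirc : ∀ z ∈ (P.map (Int.castRingHom ℂ)).roots, ‖z‖ ≠ 1) :
    (1 + Real.sqrt 17) / 4 ≤ (P.map (Int.castRingHom ℂ)).mahlerMeasure := by
  have h := smyth_ineq P hm e he h0 hrev hcirc
  set M := (P.map (Int.castRingHom ℂ)).mahlerMeasure with hM
  have hM0 : 0 < M := Polynomial.mahlerMeasure_pos_of_ne_zero (hm.map _).ne_zero
  have h1 : M ≤ 2 * (M ^ 2 - 1) := by
    have h2 : M ^ 2 * M⁻¹ ≤ M ^ 2 * (2 * (1 - M⁻¹ ^ 2)) :=
      mul_le_mul_of_nonneg_left h (by positivity)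
    have h3 : M ^ 2 * M⁻¹ = M := by field_simp
    have h4 : M ^ 2 * (2 * (1 - M⁻¹ ^ 2)) = 2 * (M ^ 2 - 1) := by field_simp
    rwa [h3, h4] at h2
  have h17 : Real.sqrt 17 ^ 2 = 17 := Real.sq_sqrt (by norm_num)
  have h17' : 0 ≤ Real.sqrt 17 := Real.sqrt_nonneg 17
  by_contra hlt
  rw [not_le] at hlt
  have h5 : 4 * M - 1 < Real.sqrt 17 := by linarith
  by_cases h6 : 0 ≤ 4 * M - 1
  · nlinarith
  · nlinarith

end

end LehmerLevel
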