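import Pool.Agent.Work.MP_30f4fc_nt.Count
import Pool.Agent.Work.MP_30f4fc_nt.Smyth

/-!
# Assembly
-/

namespace LehmerLevel

open Polynomial

noncomputable section

lemma two_le_bound {P : ℤ[X]} (h : 2 ≤ |P.coeff 0|) :
    (1 + Real.sqrt 17) / 4 ≤ (P.map (Int.castRingHom ℂ)).mahlerMeasure := by
  have h1 := Polynomial.norm_coeff_le_choose_mul_mahlerMeasure 0 (P.map (Int.castRingHom ℂ))
  rw [Nat.choose_zero_right, Nat.cast_one, one_mul, coeff_map] at h1
  have h2 : (2 : ℝ) ≤ ‖(Int.castRingHom ℂ) (P.coeff 0)‖ := by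
    rw [eq_intCast, Complex.norm_intCast]
    exact_mod_cast h
  have h3 : Real.sqrt 17 ≤ 7 := by
    rw [show (7 : ℝ) = Real.sqrt 49 by
      rw [show (49 : ℝ) = 7 ^ 2 by norm_num, Real.sqrt_sq (by norm_num)]]
    exact Real.sqrt_le_sqrt (by norm_num)
  linarith

lemma aeval_reverse_iff (P : ℤ[X]) {z : ℂ} (hz : z ≠ 0) :
    aeval z⁻¹ P.reverse = 0 ↔ aeval z P = 0 := by
  let _ : Invertible z := invertibleOfNonzero hz
  have h := Polynomial.eval₂_reverse_eq_zero_iff (algebraMap ℤ ℂ) z P
  rw [invOf_eq_inv] at h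
  exact h

lemma aeval_conj (P : ℤ[X]) {z : ℂ} (hz : aeval z P = 0) : aeval ((starRingEnd ℂ) z) P = 0 := by
  have h : aeval (Complex.conjAe z) P = Complex.conjAe (aeval z P) :=
    aeval_algHom_apply ((Complex.conjAe : ℂ →ₐ[ℝ] ℂ).restrictScalars ℤ) z P
  rw [hz, map_zero] at h
  exact h

/-- an irreducible polynomial with a root on the circle is reciprocal -/
lemma reciprocal_of_circle (P : ℤ[X]) (hm : P.Monic) (hirr : Irreducible P) (e : ℤ)
    (he : e = 1 ∨ e = -1) (h0 : P.coeff 0 = e) {z : ℂ} (hz : aeval z P = 0) (hn : ‖z‖ = 1) :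
    P = C e * P.reverse := by
  have hee : e * e = 1 := by rcases he with h | h <;> rw [h] <;> norm_num
  have hz0 : z ≠ 0 := by
    rintro rfl
    simp at hn
  have hzc : (starRingEnd ℂ) z ≠ 0 := by simpa using hz0
  have h1 : ((starRingEnd ℂ) z)⁻¹ = z := by
    rw [Complex.inv_def, Complex.conj_conj, Complex.normSq_conj, Complex.normSq_eq_norm_sq, hn]
    simp
  have h2 : aeval z P.reverse = 0 := by
    have := (aeval_reverse_iff P hzc).mpr (aeval_conj P hz)
    rwa [h1] at this
  set q : ℚ[X] := P.map (Int.castRingHom ℚ) with hq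
  have hqirr : Irreducible q := by
    have := (hm.irreducible_iff_irreducible_map_fraction_map (K := ℚ)).mp hirr
    simpa [hq] using this
  have hqm : q.Monic := hm.map _
  have hmin : q = minpoly ℚ z := by
    apply minpoly.eq_of_irreducible_of_monic hqirr _ hqm
    rw [hq]
    exact (aeval_map_algebraMap ℚ z P).trans hz
  have hdvd : q ∣ P.reverse.map (Int.castRingHom ℚ) := by
    rw [hmin]
    apply minpoly.dvd
    exact (aeval_map_algebraMap ℚ z P.reverse).trans h2
  have hdvd' : P ∣ P.reverse :=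
    (Polynomial.map_dvd_map (Int.castRingHom ℚ) (RingHom.injective_int _) hm).mp hdvd
  obtain ⟨r, hr⟩ := hdvd'
  have hr0 : r ≠ 0 := by
    rintro rfl
    rw [mul_zero, reverse_eq_zero] at hr
    exact hm.ne_zero hr
  have hdeg : r.natDegree = 0 := by
    have h3 : (P * r).natDegree = P.natDegree + r.natDegree := natDegree_mul hm.ne_zero hr0
    have h4 := reverse_natDegree_le P
    rw [hr, h3] at h4
    omega
  rw [eq_C_of_natDegree_eq_zero hdeg] at hr
  have hc : (1 : ℤ) = e * r.coeff 0 := by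
    have := congrArg (fun f => f.coeff 0) hr
    simp only [coeff_zero_reverse, hm.leadingCoeff, mul_coeff_zero, coeff_C_zero, h0] at this
    exact this
  have hre : r.coeff 0 = e := by
    have : e * (e * r.coeff 0) = e := by rw [← hc, mul_one]
    rwa [← mul_assoc, hee, one_mul] at this
  rw [hr, hre]
  rw [show C e * (P * C e) = C (e * e) * P by rw [C_mul]; ring, hee, C_1, one_mul]

lemma exists_root_of_ne_one (P : ℤ[X]) (hm : P.Monic)
    (hM : (P.map (Int.castRingHom ℂ)).mahlerMeasure ≠ 1) :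
    ∃ z : ℂ, aeval z P = 0 ∧ 1 < ‖z‖ := by
  by_contra hcon
  push Not at hcon
  apply hM
  rw [Polynomial.mahlerMeasure_eq_leadingCoeff_mul_prod_roots, (hm.map _).leadingCoeff, norm_one,
    one_mul]
  have h1 : ((P.map (Int.castRingHom ℂ)).roots.map fun a => max 1 ‖a‖)
      = (P.map (Int.castRingHom ℂ)).roots.map fun _ => (1 : ℝ) := by
    apply Multiset.map_congr rfl
    intro a ha
    apply max_eq_left
    apply hcon
    have := (mem_roots (hm.map (Int.castRingHom ℂ)).ne_zero).mp ha
    rw [IsRoot.def, eval_map] at this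
    exact this
  rw [h1]
  simp

theorem main (P : ℤ[X]) (hm : P.Monic) (hirr : Irreducible P) (F : Type*) [Field F] [CharZero F]
    [Algebra.IsAlgebraic ℚ F]
    (hF : NumberField.IsTotallyReal F ∨ NumberField.IsCMField F) :
    (P.map (Int.castRingHom ℂ)).mahlerMeasure = 1 ∨
    (P ≠ C (P.coeff 0) * P.reverse ∧
      (1 + Real.sqrt 17) / 4 ≤ (P.map (Int.castRingHom ℂ)).mahlerMeasure) ∨
    (P.natDegree : ℝ) ≤
      2 * (Multiset.card ((P.map (Int.castRingHom ℂ)).roots.filter fun z => 1 < ‖z‖) : ℝ)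
        * (1 + Real.logb 2 (Nat.card (P.map (algebraMap ℤ F)).Gal)) := by
  by_cases hM : (P.map (Int.castRingHom ℂ)).mahlerMeasure = 1
  · exact Or.inl hM
  right
  obtain ⟨z0, hz0, hz0n⟩ := exists_root_of_ne_one P hm hM
  -- constant coefficient
  by_cases h2 : 2 ≤ |P.coeff 0|
  · refine Or.inl ⟨?_, two_le_bound h2⟩
    intro hrec
    have h3 := congrArg (fun f => f.coeff 0) hrec
    simp only [mul_coeff_zero, coeff_C_zero, coeff_zero_reverse, hm.leadingCoeff, mul_one] at h3
    have h4 := congrArg leadingCoeff hrec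
    rw [leadingCoeff_mul, leadingCoeff_C, hm.leadingCoeff, reverse_leadingCoeff] at h4
    have h5 : |P.coeff 0| ∣ 1 := by
      rw [abs_dvd]
      exact Dvd.intro _ h4.symm
    have h6 := Int.le_of_dvd one_pos h5
    omega
  have hcoeff0 : P.coeff 0 ≠ 0 := by
    intro h0
    have hX : X ∣ P := X_dvd_iff.mpr h0
    have hass : Associated X P := (irreducible_X).associated_of_dvd hirr hX
    have hPX : X = P := eq_of_monic_of_associated monic_X hm hass
    rw [← hPX, aeval_X] at hz0
    rw [hz0, norm_zero] at hz0n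
    linarith
  have he : P.coeff 0 = 1 ∨ P.coeff 0 = -1 := by
    rw [not_le] at h2
    have h3 : |P.coeff 0| = 1 := by
      have := Int.one_le_abs hcoeff0
      omega
    rcases (abs_eq (by norm_num : (0 : ℤ) ≤ 1)).mp h3 with h | h
    · exact Or.inl h
    · exact Or.inr h
  by_cases hrec : P = C (P.coeff 0) * P.reverse
  · right
    -- reciprocal case
    have hrec' : ∀ z : ℂ, aeval z P = 0 → aeval z⁻¹ P = 0 := by
      intro z hz
      by_cases hz' : z = 0
      · rw [hz', inv_zero]
        rwa [hz'] at hz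
      · rw [hrec, map_mul, (aeval_reverse_iff P hz').mpr hz, mul_zero]
    -- the conjugation on `F`
    obtain ⟨κ, hκ⟩ : ∃ κ : F → F, ∀ (φ : F →+* ℂ) (x : F), φ (κ x) = (starRingEnd ℂ) (φ x) := by
      rcases hF with h | h
      · refine ⟨id, fun φ x => ?_⟩
        have h1 := NumberField.IsTotallyReal.complexEmbedding_isReal φ
        have h2 : NumberField.ComplexEmbedding.conjugate φ = φ := h1
        have h3 := RingHom.congr_fun h2 x
        exact h3.symm
      · exact ⟨NumberField.IsCMField.complexConj F,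
          fun φ x => NumberField.IsCMField.complexEmbedding_complexConj F φ x⟩
    let _ : Algebra F Om := (IsAlgClosed.lift : F →ₐ[ℚ] Om).toRingHom.toAlgebra
    obtain ⟨m, hm1, hm2⟩ := galois_bound_aux (F := F) P hm hirr hrec' z0 hz0 hz0n κ hκ
    have h3 : (m : ℝ) ≤ Real.logb 2 (Nat.card (P.map (algebraMap ℤ F)).Gal) := by
      rw [Real.le_logb_iff_rpow_le (by norm_num) (by exact_mod_cast Nat.card_pos)]
      rw [Real.rpow_natCast]
      exact_mod_cast hm2
    calc (P.natDegree : ℝ)
        ≤ ((2 * Multiset.card ((P.map (Int.castRingHom ℂ)).roots.filter fun z => 1 < ‖z‖)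
            * (m + 1) : ℕ) : ℝ) := by exact_mod_cast hm1
      _ = 2 * (Multiset.card ((P.map (Int.castRingHom ℂ)).roots.filter fun z => 1 < ‖z‖) : ℝ)
            * (1 + m) := by push_cast; ring
      _ ≤ _ := by gcongr
  · left
    refine ⟨hrec, ?_⟩
    refine smyth_bound P hm (P.coeff 0) he rfl hrec ?_
    intro z hz hn
    apply hrec
    refine reciprocal_of_circle P hm hirr (P.coeff 0) he rfl (z := z) ?_ hn
    have := (mem_roots (hm.map (Int.castRingHom ℂ)).ne_zero).mp hz
    rw [IsRoot.def, eval_map] at this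
    exact this

end

end LehmerLevel
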