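import Mathlib

/-! A two-term Parseval inequality on the unit circle. -/

namespace LehmerGal

open Real Metric

theorem avg_pow (k : ℕ) (hk : 1 ≤ k) : circleAverage (fun z : ℂ => z ^ k) 0 1 = 0 := by
  have h : DiffContOnCl ℂ (fun z : ℂ => z ^ k) (ball 0 |(1 : ℝ)|) :=
    (differentiable_pow k).diffContOnCl
  rw [h.circleAverage]
  exact zero_pow (by omega)

theorem parseval_two {G : ℂ → ℂ} (hG : ContinuousOn G (sphere 0 1))
    (hn : ∀ z ∈ sphere (0 : ℂ) 1, ‖G z‖ = 1) (k : ℕ) (hk : 1 ≤ k) :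
    ‖circleAverage G 0 1‖ ^ 2 + ‖circleAverage (fun z => (z ^ k)⁻¹ * G z) 0 1‖ ^ 2 ≤ 1 := by
  set c0 := circleAverage G 0 1 with hc0
  set ck := circleAverage (fun z => (z ^ k)⁻¹ * G z) 0 1 with hck
  set a := (starRingEnd ℂ) c0 with ha
  set b := (starRingEnd ℂ) ck with hb
  have hinv : ContinuousOn (fun z : ℂ => (z ^ k)⁻¹) (sphere 0 1) := by
    apply ContinuousOn.inv₀ (continuous_pow k).continuousOn
    intro z hz
    have : ‖z‖ = 1 := by simpa using hz
    exact pow_ne_zero _ (by rintro rfl; simp at this)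
  have i1 : CircleIntegrable (fun z => a * G z) 0 1 :=
    (continuousOn_const.mul hG).circleIntegrable zero_le_one
  have i2 : CircleIntegrable (fun z => b * ((z ^ k)⁻¹ * G z)) 0 1 :=
    (continuousOn_const.mul (hinv.mul hG)).circleIntegrable zero_le_one
  have i3 : CircleIntegrable (fun z => a * G z + b * ((z ^ k)⁻¹ * G z)) 0 1 := i1.add i2
  -- the average of `G (a + b z^{-k})`
  have e1 : circleAverage (fun z => a * G z + b * ((z ^ k)⁻¹ * G z)) 0 1 = a * c0 + b * ck := by
    rw [circleAverage_fun_add i1 i2]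
    have h1 := circleAverage_fun_smul (a := a) (f := G) (c := 0) (R := 1)
    have h2 := circleAverage_fun_smul (a := b) (f := fun z => (z ^ k)⁻¹ * G z) (c := 0) (R := 1)
    simp only [smul_eq_mul] at h1 h2
    rw [h1, h2]
  have hS : a * c0 + b * ck = ((‖c0‖ ^ 2 + ‖ck‖ ^ 2 : ℝ) : ℂ) := by
    rw [ha, hb, ← Complex.normSq_eq_conj_mul_self, ← Complex.normSq_eq_conj_mul_self,
      Complex.normSq_eq_norm_sq, Complex.normSq_eq_norm_sq]
    push_cast
    ring
  set S := ‖c0‖ ^ 2 + ‖ck‖ ^ 2 with hSdef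
  have e2 : circleAverage (fun z => (a * G z + b * ((z ^ k)⁻¹ * G z)).re) 0 1 = S := by
    have h := Complex.reCLM.circleAverage_comp_comm i3
    rw [e1, hS] at h
    simpa [Function.comp_def] using h
  have i4 : CircleIntegrable (fun z => (a * (starRingEnd ℂ) b) * z ^ k) 0 1 :=
    (Continuous.continuousOn (by fun_prop)).circleIntegrable zero_le_one
  have e3 : circleAverage (fun z => ((a * (starRingEnd ℂ) b) * z ^ k).re) 0 1 = 0 := by
    have h := Complex.reCLM.circleAverage_comp_comm i4
    have h1 := circleAverage_fun_smul (a := a * (starRingEnd ℂ) b) (f := fun z : ℂ => z ^ k)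
      (c := 0) (R := 1)
    simp only [smul_eq_mul] at h1
    rw [h1, avg_pow k hk, mul_zero, map_zero] at h
    simpa [Function.comp_def] using h
  have i5 : CircleIntegrable (fun z => ((a * (starRingEnd ℂ) b) * z ^ k).re) 0 1 :=
    (Continuous.continuousOn (by fun_prop)).circleIntegrable zero_le_one
  have i6 : CircleIntegrable (fun _ : ℂ => (1 + S) / 2) 0 1 :=
    continuousOn_const.circleIntegrable zero_le_one
  have e4 : circleAverage (fun z => (1 + S) / 2 + ((a * (starRingEnd ℂ) b) * z ^ k).re) 0 1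
      = (1 + S) / 2 := by
    rw [circleAverage_fun_add i6 i5, e3, circleAverage_const, add_zero]
  have hSab : S = ‖a‖ ^ 2 + ‖b‖ ^ 2 := by
    rw [hSdef, ha, hb, RCLike.norm_conj, RCLike.norm_conj]
  clear_value a b
  have hle : circleAverage (fun z => (a * G z + b * ((z ^ k)⁻¹ * G z)).re) 0 1
      ≤ circleAverage (fun z => (1 + S) / 2 + ((a * (starRingEnd ℂ) b) * z ^ k).re) 0 1 := by
    apply circleAverage_mono
    · exact (Complex.continuous_re.comp_continuousOn
        ((continuousOn_const.mul hG).add (continuousOn_const.mul (hinv.mul hG)))).circleIntegrable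
        zero_le_one
    · exact (Continuous.continuousOn (by fun_prop)).circleIntegrable zero_le_one
    · intro z hz
      rw [abs_one] at hz
      have hz1 : ‖z‖ = 1 := by simpa using hz
      have hG1 := hn z hz
      have hzk : ‖z ^ k‖ = 1 := by rw [norm_pow, hz1, one_pow]
      have hinvk : (z ^ k)⁻¹ = (starRingEnd ℂ) (z ^ k) := by
        have h0 : z ^ k ≠ 0 := by intro h; rw [h] at hzk; simp at hzk
        field_simp
        rw [Complex.mul_conj, Complex.normSq_eq_norm_sq, hzk]
        norm_num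
      have h1 : a * G z + b * ((z ^ k)⁻¹ * G z) = G z * (a + b * (z ^ k)⁻¹) := by ring
      rw [h1, hinvk]
      set w := a + b * (starRingEnd ℂ) (z ^ k) with hw
      have h2 : (G z * w).re ≤ ‖G z‖ * ‖w‖ := by
        rw [← norm_mul]; exact Complex.re_le_norm _
      have h3 : ‖w‖ ^ 2 = ‖a‖ ^ 2 + ‖b‖ ^ 2 + 2 * ((a * (starRingEnd ℂ) b) * z ^ k).re := by
        rw [← Complex.normSq_eq_norm_sq w, hw, Complex.normSq_add, Complex.normSq_mul,
          Complex.normSq_conj (z ^ k), Complex.normSq_eq_norm_sq (z ^ k), hzk, map_mul,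
          Complex.conj_conj, Complex.normSq_eq_norm_sq a, Complex.normSq_eq_norm_sq b]
        ring_nf
      have h4 : ‖G z‖ * ‖w‖ ≤ (1 + ‖w‖ ^ 2) / 2 := by
        rw [hG1]
        nlinarith [sq_nonneg (1 - ‖w‖)]
      rw [hSab]
      linarith
  rw [e2, e4] at hle
  linarith

end LehmerGal
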