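import Mathlib
import Pool.Agent.Work.MP_30f4fc_nt.ParsevalPart

/-! A weak form of Smyth's theorem: `M(P)^2 >= 5/4` for non-reciprocal `P`. -/

namespace LehmerGal

open Polynomial Metric Real

/-- The product of `X - α` over the roots outside the unit circle and of `1 - conj(α) X` over the
other roots. -/
noncomputable def outerPoly (Q : ℂ[X]) : ℂ[X] :=
  (Q.roots.map (fun α => if 1 < ‖α‖ then X - C α else 1 - C ((starRingEnd ℂ) α) * X)).prod

theorem norm_mprod (s : Multiset ℂ) : ‖s.prod‖ = (s.map (fun x => ‖x‖)).prod := by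
  induction s using Multiset.induction_on with
  | empty => simp
  | cons a s ih => rw [Multiset.prod_cons, norm_mul, ih, Multiset.map_cons, Multiset.prod_cons]

theorem norm_outerPoly_eval (Q : ℂ[X]) (z : ℂ) : ‖(outerPoly Q).eval z‖ =
    (Q.roots.map (fun α => if 1 < ‖α‖ then ‖z - α‖ else ‖1 - (starRingEnd ℂ) α * z‖)).prod := by
  rw [outerPoly, eval_multiset_prod, norm_mprod, Multiset.map_map, Multiset.map_map]
  congr 1
  apply Multiset.map_congr rfl
  intro α _
  simp only [Function.comp_apply]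
  split_ifs <;> simp

theorem norm_eval_eq (Q : ℂ[X]) (hQ : Q.Monic) (z : ℂ) :
    ‖Q.eval z‖ = (Q.roots.map (fun α => ‖z - α‖)).prod := by
  rw [(IsAlgClosed.splits Q).eval_eq_prod_roots_of_monic hQ, norm_mprod, Multiset.map_map]
  rfl

theorem norm_one_sub_conj_mul {α z : ℂ} (hz : ‖z‖ = 1) :
    ‖1 - (starRingEnd ℂ) α * z‖ = ‖z - α‖ := by
  have h1 : z * (starRingEnd ℂ) z = 1 := by
    rw [Complex.mul_conj, Complex.normSq_eq_norm_sq, hz]; norm_num
  have h2 : 1 - (starRingEnd ℂ) α * z = z * (starRingEnd ℂ) (z - α) := by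
    rw [map_sub, mul_sub, h1]; ring
  rw [h2, norm_mul, hz, RCLike.norm_conj, one_mul]

theorem norm_outerPoly_sphere (Q : ℂ[X]) (hQ : Q.Monic) {z : ℂ} (hz : ‖z‖ = 1) :
    ‖(outerPoly Q).eval z‖ = ‖Q.eval z‖ := by
  rw [norm_outerPoly_eval, norm_eval_eq Q hQ]
  congr 1
  apply Multiset.map_congr rfl
  intro α _
  split_ifs
  · rfl
  · exact norm_one_sub_conj_mul hz

theorem norm_outerPoly_zero (Q : ℂ[X]) (hQ : Q.Monic) :
    ‖(outerPoly Q).eval 0‖ = Q.mahlerMeasure := by
  rw [norm_outerPoly_eval, mahlerMeasure_eq_leadingCoeff_mul_prod_roots, hQ.leadingCoeff,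
    norm_one, one_mul]
  congr 1
  apply Multiset.map_congr rfl
  intro α _
  split_ifs with h
  · rw [zero_sub, norm_neg, max_eq_right h.le]
  · rw [mul_zero, sub_zero, norm_one, max_eq_left (not_lt.1 h)]

theorem outerPoly_ne_zero (Q : ℂ[X]) (h1 : ∀ α ∈ Q.roots, ‖α‖ ≠ 1) {z : ℂ} (hz : ‖z‖ ≤ 1) :
    (outerPoly Q).eval z ≠ 0 := by
  rw [← norm_pos_iff, norm_outerPoly_eval]
  apply Multiset.prod_pos
  intro x hx
  rw [Multiset.mem_map] at hx
  obtain ⟨α, hα, rfl⟩ := hx
  split_ifs with h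
  · rw [norm_pos_iff, sub_ne_zero]
    rintro rfl
    linarith
  · rw [norm_pos_iff, sub_ne_zero]
    intro he
    have hlt : ‖α‖ < 1 := lt_of_le_of_ne (not_lt.1 h) (h1 α hα)
    have h2 : ‖(starRingEnd ℂ) α * z‖ = 1 := by rw [← he, norm_one]
    rw [norm_mul, RCLike.norm_conj] at h2
    nlinarith [norm_nonneg α, norm_nonneg z]

theorem diffContOnCl_quot (Q U : ℂ[X]) (h1 : ∀ α ∈ Q.roots, ‖α‖ ≠ 1) :
    DiffContOnCl ℂ (fun z => U.eval z / (outerPoly Q).eval z) (ball 0 |(1 : ℝ)|) := by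
  apply DifferentiableOn.diffContOnCl
  intro z hz
  rw [abs_one, closure_ball (0 : ℂ) one_ne_zero, mem_closedBall_zero_iff] at hz
  exact (U.differentiable.differentiableAt.div (outerPoly Q).differentiable.differentiableAt
    (outerPoly_ne_zero Q h1 hz)).differentiableWithinAt

theorem continuousOn_quot (Q U : ℂ[X]) (h1 : ∀ α ∈ Q.roots, ‖α‖ ≠ 1) :
    ContinuousOn (fun z => U.eval z / (outerPoly Q).eval z) (sphere 0 1) := by
  apply U.continuous.continuousOn.div (outerPoly Q).continuous.continuousOn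
  intro z hz
  exact outerPoly_ne_zero Q h1 (le_of_eq (by simpa using hz))

theorem avg_quot (Q U : ℂ[X]) (h1 : ∀ α ∈ Q.roots, ‖α‖ ≠ 1) :
    circleAverage (fun z => U.eval z / (outerPoly Q).eval z) 0 1
      = U.eval 0 / (outerPoly Q).eval 0 :=
  (diffContOnCl_quot Q U h1).circleAverage

theorem norm_reverse_eval (P : ℤ[X]) {z : ℂ} (hz : ‖z‖ = 1) :
    ‖(P.reverse.map (Int.castRingHom ℂ)).eval z‖ = ‖(P.map (Int.castRingHom ℂ)).eval z‖ := by
  have hz0 : z ≠ 0 := by rintro rfl; simp at hz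
  have hinv : z⁻¹ = (starRingEnd ℂ) z := by
    rw [inv_eq_iff_eq_inv, eq_comm]
    apply inv_eq_of_mul_eq_one_left
    rw [Complex.mul_conj, Complex.normSq_eq_norm_sq, hz]; norm_num
  let i : Invertible z⁻¹ := invertibleOfNonzero (inv_ne_zero hz0)
  have h := eval₂_reverse_mul_pow (Int.castRingHom ℂ) z⁻¹ P
  have h2 : ⅟(z⁻¹) = z := by rw [invOf_eq_inv, inv_inv]
  rw [h2] at h
  have h3 : eval₂ (Int.castRingHom ℂ) z⁻¹ P = (starRingEnd ℂ) (eval₂ (Int.castRingHom ℂ) z P) := by
    rw [hinv, hom_eval₂]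
    congr 1
    ext
    simp
  rw [eval_map, eval_map]
  have h4 := congrArg norm h
  rw [h3, norm_mul, RCLike.norm_conj, norm_pow, norm_inv, hz, inv_one, one_pow, mul_one] at h4
  exact h4

theorem smyth_weak (P : ℤ[X]) (hm : P.Monic)
    (h1 : ∀ α ∈ (P.map (Int.castRingHom ℂ)).roots, ‖α‖ ≠ 1)
    (h2 : P ≠ C (P.coeff 0) * P.reverse) (h3 : |P.coeff 0| = 1) :
    5 / 4 ≤ (P.map (Int.castRingHom ℂ)).mahlerMeasure ^ 2 := by
  set Q := P.map (Int.castRingHom ℂ) with hQdef
  set Qr := P.reverse.map (Int.castRingHom ℂ) with hQr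
  have hQ : Q.Monic := hm.map _
  set M := Q.mahlerMeasure with hM
  set a := P.coeff 0 with ha
  have hMpos : 0 < M := mahlerMeasure_pos_of_ne_zero hQ.ne_zero
  set D := P - C a * P.reverse with hD
  have hD0 : D ≠ 0 := sub_ne_zero.2 h2
  obtain ⟨U, hU, hUd⟩ := exists_eq_pow_rootMultiplicity_mul_and_not_dvd D hD0 0
  set k := D.rootMultiplicity 0 with hk
  have hk1 : 1 ≤ k := by
    rw [hk, Nat.one_le_iff_ne_zero, ← Nat.pos_iff_ne_zero, rootMultiplicity_pos hD0, IsRoot.def,
      hD, eval_sub, eval_mul, eval_C, ← coeff_zero_eq_eval_zero, ← coeff_zero_eq_eval_zero,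
      coeff_zero_reverse, hm.leadingCoeff]
    ring
  have hU0 : U.coeff 0 ≠ 0 := by
    intro h
    apply hUd
    rw [C_0, sub_zero, X_dvd_iff]
    exact h
  set Uc := U.map (Int.castRingHom ℂ) with hUc
  have hU0' : 1 ≤ ‖Uc.eval 0‖ := by
    rw [← coeff_zero_eq_eval_zero, hUc, coeff_map]
    rw [eq_intCast, Complex.norm_intCast]
    have := Int.one_le_abs hU0
    exact_mod_cast this
  -- the identity between the three polynomials
  have hid : ∀ z : ℂ, Q.eval z - (a : ℂ) * Qr.eval z = z ^ k * Uc.eval z := by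
    intro z
    have h := congrArg (fun f : ℤ[X] => (f.map (Int.castRingHom ℂ)).eval z) hU
    simp only [hD, Polynomial.map_sub, Polynomial.map_mul, Polynomial.map_pow, map_C, map_X,
      eval_sub, eval_mul, eval_pow, eval_C, eval_X] at h
    simpa using h
  have hG1 : ∀ z ∈ sphere (0 : ℂ) 1, ‖Q.eval z / (outerPoly Q).eval z‖ = 1 := by
    intro z hz
    have hz1 : ‖z‖ = 1 := by simpa using hz
    have hne := outerPoly_ne_zero Q h1 hz1.le
    rw [norm_div, norm_outerPoly_sphere Q hQ hz1]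
    apply div_self
    rw [← norm_outerPoly_sphere Q hQ hz1]
    exact norm_ne_zero_iff.2 hne
  have hH1 : ∀ z ∈ sphere (0 : ℂ) 1, ‖Qr.eval z / (outerPoly Q).eval z‖ = 1 := by
    intro z hz
    have hz1 : ‖z‖ = 1 := by simpa using hz
    rw [norm_div, norm_reverse_eval P hz1, ← norm_div]
    exact hG1 z hz
  have pG := parseval_two (continuousOn_quot Q Q h1) hG1 k hk1
  have pH := parseval_two (continuousOn_quot Q Qr h1) hH1 k hk1
  rw [avg_quot Q Q h1, norm_div, norm_outerPoly_zero Q hQ] at pG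
  rw [avg_quot Q Qr h1, norm_div, norm_outerPoly_zero Q hQ] at pH
  have v1 : ‖Q.eval 0‖ = 1 := by
    rw [← coeff_zero_eq_eval_zero, hQdef, coeff_map, eq_intCast, Complex.norm_intCast, ← ha]
    exact_mod_cast h3
  have v2 : ‖Qr.eval 0‖ = 1 := by
    rw [← coeff_zero_eq_eval_zero, hQr, coeff_map, coeff_zero_reverse, hm.leadingCoeff]
    simp
  rw [v1] at pG
  rw [v2] at pH
  set gk := circleAverage (fun z => (z ^ k)⁻¹ * (Q.eval z / (outerPoly Q).eval z)) 0 1 with hgk
  set hk' := circleAverage (fun z => (z ^ k)⁻¹ * (Qr.eval z / (outerPoly Q).eval z)) 0 1 with hhk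
  have hinv : ContinuousOn (fun z : ℂ => (z ^ k)⁻¹) (sphere 0 1) := by
    apply ContinuousOn.inv₀ (continuous_pow k).continuousOn
    intro z hz
    have : ‖z‖ = 1 := by simpa using hz
    exact pow_ne_zero _ (by rintro rfl; simp at this)
  have hrel : gk - (a : ℂ) * hk' = Uc.eval 0 / (outerPoly Q).eval 0 := by
    rw [← avg_quot Q Uc h1, hgk, hhk]
    have h4 := circleAverage_fun_smul (a := (a : ℂ))
      (f := fun z : ℂ => (z ^ k)⁻¹ * (Qr.eval z / (outerPoly Q).eval z)) (c := 0) (R := 1)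
    simp only [smul_eq_mul] at h4
    rw [← h4, ← circleAverage_fun_sub]
    · apply circleAverage_congr_sphere
      intro z hz
      have hz1 : ‖z‖ = 1 := by simpa using hz
      have hz0 : z ^ k ≠ 0 := pow_ne_zero _ (by rintro rfl; simp at hz1)
      have hne := outerPoly_ne_zero Q h1 hz1.le
      have := hid z
      simp only
      field_simp
      linear_combination this
    · exact (hinv.mul (continuousOn_quot Q Q h1)).circleIntegrable zero_le_one
    · exact (continuousOn_const.mul (hinv.mul (continuousOn_quot Q Qr h1))).circleIntegrable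
        zero_le_one
  have hge : 1 / M ≤ ‖gk‖ + ‖hk'‖ := by
    calc 1 / M ≤ ‖Uc.eval 0‖ / M := by gcongr
      _ = ‖Uc.eval 0 / (outerPoly Q).eval 0‖ := by rw [norm_div, norm_outerPoly_zero Q hQ]
      _ = ‖gk - (a : ℂ) * hk'‖ := by rw [hrel]
      _ ≤ ‖gk‖ + ‖(a : ℂ) * hk'‖ := norm_sub_le _ _
      _ = ‖gk‖ + ‖hk'‖ := by
        rw [norm_mul, Complex.norm_intCast]
        have : |(a : ℝ)| = 1 := by exact_mod_cast h3
        rw [this, one_mul]
  -- conclusion
  set u := 1 / M with hu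
  have hupos : 0 < u := by positivity
  have hu2 : 5 * u ^ 2 ≤ 4 := by
    rcases le_total ‖gk‖ ‖hk'‖ with h | h
    · have h5 : u / 2 ≤ ‖hk'‖ := by linarith
      nlinarith [norm_nonneg hk']
    · have h5 : u / 2 ≤ ‖gk‖ := by linarith
      nlinarith [norm_nonneg gk]
  have : u * M = 1 := by rw [hu]; field_simp
  nlinarith [mul_pos hupos hMpos, sq_nonneg M, sq_nonneg (u * M)]

end LehmerGal
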