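import Mathlib
import Pool.Agent.Work.MP_30f4fc_nt.GaloisPart
import Pool.Agent.Work.MP_30f4fc_nt.SmythPart

/-! Lehmer's conjecture at level `s` for polynomials whose Galois group is small compared with
`2 ^ (degree / (2 s))`. -/

namespace Pool.Agent.Work.MP_30f4fc_nt.SmallGaloisGroup

open Polynomial LehmerGal

theorem root_inv (P : ℤ[X]) (a : ℤ) (h : P = C a * P.reverse) {z : ℂ} (hz0 : z ≠ 0)
    (hz : (P.map (Int.castRingHom ℂ)).eval z = 0) :
    (P.map (Int.castRingHom ℂ)).eval z⁻¹ = 0 := by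
  let i : Invertible z := invertibleOfNonzero hz0
  have h1 := eval₂_reverse_mul_pow (Int.castRingHom ℂ) z P
  rw [invOf_eq_inv] at h1
  rw [eval_map] at hz ⊢
  rw [hz] at h1
  have h2 : eval₂ (Int.castRingHom ℂ) z⁻¹ P.reverse = 0 := by
    rcases mul_eq_zero.1 h1 with h3 | h3
    · exact h3
    · exact absurd h3 (pow_ne_zero _ hz0)
  rw [h, eval₂_mul, h2, mul_zero]

theorem eq_reverse (P : ℤ[X]) (hm : P.Monic) (hirr : Irreducible P) (h3 : |P.coeff 0| = 1)
    {z : ℂ} (hz1 : ‖z‖ = 1) (hz : (P.map (Int.castRingHom ℂ)).eval z = 0) :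
    P = C (P.coeff 0) * P.reverse := by
  have hr : (P.reverse.map (Int.castRingHom ℂ)).eval z = 0 := by
    rw [← norm_eq_zero, norm_reverse_eval P hz1, hz, norm_zero]
  have hpq : Irreducible (P.map (algebraMap ℤ ℚ)) :=
    (hm.irreducible_iff_irreducible_map_fraction_map (K := ℚ)).1 hirr
  have hev : ∀ f : ℤ[X], (f.map (Int.castRingHom ℂ)).eval z = 0 →
      aeval z (f.map (algebraMap ℤ ℚ)) = 0 := by
    intro f hf
    rw [aeval_map_algebraMap, aeval_def, eval₂_eq_eval_map]
    simpa using hf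
  have hmin : P.map (algebraMap ℤ ℚ) = minpoly ℚ z :=
    minpoly.eq_of_irreducible_of_monic hpq (hev P hz) (hm.map _)
  have hdvd : P.map (algebraMap ℤ ℚ) ∣ P.reverse.map (algebraMap ℤ ℚ) := by
    rw [hmin]
    exact minpoly.dvd ℚ z (hev _ hr)
  have hdvd' : P ∣ P.reverse :=
    (map_dvd_map (algebraMap ℤ ℚ) (by exact Int.cast_injective) hm).1 hdvd
  obtain ⟨W, hW⟩ := hdvd'
  have hP0 : P.coeff 0 ≠ 0 := by intro h; rw [h] at h3; simp at h3
  have hrev0 : P.reverse ≠ 0 := by
    intro h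
    exact hm.ne_zero (reverse_eq_zero.1 h)
  have hW0 : W ≠ 0 := by rintro rfl; rw [mul_zero] at hW; exact hrev0 hW
  have hdeg : W.natDegree = 0 := by
    have h4 : P.reverse.natDegree = P.natDegree + W.natDegree := by
      rw [hW]
      exact natDegree_mul hm.ne_zero hW0
    have h5 := P.reverse_natDegree_le
    omega
  obtain ⟨w, hw⟩ : ∃ w : ℤ, W = C w := ⟨W.coeff 0, eq_C_of_natDegree_eq_zero hdeg⟩
  rw [hw] at hW
  have h6 : 1 = P.coeff 0 * w := by
    have := congrArg (fun f : ℤ[X] => f.coeff 0) hW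
    simp only [coeff_zero_reverse, hm.leadingCoeff, coeff_mul_C] at this
    exact this
  have h7 : P.coeff 0 * P.coeff 0 = 1 := by
    rcases (abs_eq (by norm_num : (0 : ℤ) ≤ 1)).1 h3 with h | h <;> rw [h] <;> norm_num
  have h8 : w = P.coeff 0 := by
    have : P.coeff 0 * (P.coeff 0 * w) = P.coeff 0 := by rw [← h6, mul_one]
    rw [← mul_assoc, h7, one_mul] at this
    exact this
  rw [hW, h8]
  have h9 : (C (P.coeff 0) : ℤ[X]) * (P * C (P.coeff 0)) = P * C (P.coeff 0 * P.coeff 0) := by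
    rw [C_mul]; ring
  rw [h9, h7, C_1, mul_one]

theorem result (s k : ℕ) (P : ℤ[X]) (hm : P.Monic) (hirr : Irreducible P)
    (hs : Multiset.card ((P.map (Int.castRingHom ℂ)).roots.filter (fun z : ℂ => 1 < ‖z‖)) ≤ s)
    (hk : 2 * s * k < P.natDegree)
    (hG : Nat.card (P.map (Int.castRingHom ℚ)).Gal < 2 ^ k) :
    (P.map (Int.castRingHom ℂ)).mahlerMeasure = 1 ∨
      Real.sqrt 5 / 2 ≤ (P.map (Int.castRingHom ℂ)).mahlerMeasure := by
  classical
  set Q := P.map (Int.castRingHom ℂ) with hQdef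
  have hQ : Q.Monic := hm.map _
  have hMn : 0 ≤ Q.mahlerMeasure := mahlerMeasure_nonneg _
  have hsqrt : Real.sqrt 5 / 2 ≤ 2 := by
    have : Real.sqrt 5 ≤ 3 := by
      rw [Real.sqrt_le_left (by norm_num)]; norm_num
    linarith
  by_cases hc0 : P.coeff 0 = 0
  · left
    have hX : (X : ℤ[X]) ∣ P := X_dvd_iff.2 hc0
    have hPX : P = X := by
      obtain ⟨W, hW⟩ := hX
      have hWu : IsUnit W := by
        rcases hirr.isUnit_or_isUnit hW with h | h
        · exact absurd h not_isUnit_X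
        · exact h
      have hWm : W.Monic := by
        have h1 := congrArg leadingCoeff hW
        rw [leadingCoeff_mul, leadingCoeff_X, one_mul, hm.leadingCoeff] at h1
        exact h1.symm
      rw [hW, hWm.isUnit_iff.1 hWu, mul_one]
    rw [hQdef, hPX, Polynomial.map_X]
    have := mahlerMeasure_X_sub_C (0 : ℂ)
    rw [C_0, sub_zero, norm_zero] at this
    rw [this]
    norm_num
  by_cases hc2 : 2 ≤ |P.coeff 0|
  · right
    have h1 := norm_coeff_le_choose_mul_mahlerMeasure 0 Q
    rw [Nat.choose_zero_right, Nat.cast_one, one_mul, hQdef, coeff_map, eq_intCast,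
      Complex.norm_intCast] at h1
    have h2 : (2 : ℝ) ≤ |(P.coeff 0 : ℝ)| := by exact_mod_cast hc2
    linarith
  have h3 : |P.coeff 0| = 1 := by
    have := Int.one_le_abs hc0
    omega
  by_cases h2 : P = C (P.coeff 0) * P.reverse
  · -- the reciprocal case
    by_cases hbig : ∃ z ∈ Q.roots, 1 < ‖z‖
    · exfalso
      obtain ⟨y, hyQ, hy⟩ := hbig
      set p := P.map (Int.castRingHom ℚ) with hp
      have hpirr : Irreducible p := (hm.irreducible_iff_irreducible_map_fraction_map (K := ℚ)).1 hirr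
      have : Fact ((p.map (algebraMap ℚ ℂ)).Splits) := ⟨IsAlgClosed.splits _⟩
      have hpm : p.map (algebraMap ℚ ℂ) = Q := by
        rw [hp, hQdef, Polynomial.map_map]
        congr 1
      have hroot : ∀ z : ℂ, z ∈ p.rootSet ℂ ↔ Q.eval z = 0 := by
        intro z
        rw [mem_rootSet, aeval_def, eval₂_eq_eval_map, hpm]
        exact ⟨fun h => h.2, fun h => ⟨hpirr.ne_zero, h⟩⟩
      have h0 : ∀ z ∈ p.rootSet ℂ, z ≠ 0 := by
        rintro z hz rfl
        rw [hroot, ← coeff_zero_eq_eval_zero, hQdef, coeff_map] at hz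
        exact hc0 (by simpa using hz)
      have hinv : ∀ z ∈ p.rootSet ℂ, z⁻¹ ∈ p.rootSet ℂ := by
        intro z hz
        rw [hroot]
        exact root_inv P _ h2 (h0 z hz) ((hroot z).1 hz)
      have hyr : y ∈ p.rootSet ℂ := (hroot y).2 (by simpa using (mem_roots hQ.ne_zero).1 hyQ)
      have hcard : (Finset.univ.filter (fun x : p.rootSet ℂ => 1 < ‖(x : ℂ)‖)).card ≤ s := by
        refine le_trans ?_ hs
        rw [← Finset.card_image_of_injective _ Subtype.val_injective]
        refine le_trans (Finset.card_le_card ?_) (Multiset.toFinset_card_le _)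
        intro z hz
        rw [Finset.mem_image] at hz
        obtain ⟨x, hx, rfl⟩ := hz
        rw [Finset.mem_filter] at hx
        rw [Multiset.mem_toFinset, Multiset.mem_filter]
        refine ⟨(mem_roots hQ.ne_zero).2 ?_, hx.2⟩
        exact (hroot x).1 x.2
      have hdeg : p.natDegree = P.natDegree := hm.natDegree_map _
      have hb := gal_bound p hpirr h0 hinv ⟨y, hyr⟩ hy k (by
        rw [hdeg]
        calc 2 * (Finset.univ.filter (fun x : p.rootSet ℂ => 1 < ‖(x : ℂ)‖)).card * k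
            ≤ 2 * s * k := by gcongr
          _ < P.natDegree := hk)
      omega
    · left
      push Not at hbig
      rw [mahlerMeasure_eq_leadingCoeff_mul_prod_roots, hQ.leadingCoeff, norm_one, one_mul]
      apply Multiset.prod_eq_one
      intro x hx
      rw [Multiset.mem_map] at hx
      obtain ⟨z, hz, rfl⟩ := hx
      exact max_eq_left (hbig z hz)
  · right
    have h1 : ∀ α ∈ Q.roots, ‖α‖ ≠ 1 := by
      intro α hα hα1
      exact h2 (eq_reverse P hm hirr h3 hα1 ((mem_roots hQ.ne_zero).1 hα))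
    have h5 := smyth_weak P hm h1 h2 h3
    rw [← hQdef] at h5
    have h6 : Real.sqrt 5 / 2 = Real.sqrt (5 / 4) := by
      rw [Real.sqrt_div (by norm_num), show (4 : ℝ) = 2 ^ 2 by norm_num,
        Real.sqrt_sq (by norm_num)]
    rw [h6]
    exact Real.sqrt_le_iff.2 ⟨hMn, h5⟩

end Pool.Agent.Work.MP_30f4fc_nt.SmallGaloisGroup
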